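import Pool.Agent.Lib.MP_688fd0_co.TE.Iface78
import Pool.Agent.Lib.MP_688fd0_co.TE.IfaceSel

/-! Laws of options: means of the touched weights (for RND). -/

namespace Pool.Agent.Lib.MP_688fd0_co.TE.H20

open Pool.Agent.Lib.MP_688fd0_co.TE

section abs

variable {G L E : Type*} [Fintype G] [Fintype L] [Fintype E] [DecidableEq G] [DecidableEq E]

/-- Law of an option. -/
noncomputable def olaw (π : G → G → ℝ) (Rl : G → G → L → ℝ) (s : G → G) : (G × G) × L × L → ℝ :=
  fun o => π o.1.1 o.1.2 * (Rl o.1.1 o.1.2 o.2.1 * Rl (s o.1.1) (s o.1.2) o.2.2)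

structure LawOK (π : G → G → ℝ) (Rl : G → G → L → ℝ) (s : G → G) : Prop where
  nn : ∀ x y, 0 ≤ π x y
  one : ∑ x, ∑ y, π x y = 1
  l1 : ∀ x y, π x y ≠ 0 → IsPr (Rl x y)
  l2 : ∀ x y, π x y ≠ 0 → IsPr (Rl (s x) (s y))

variable {π : G → G → ℝ} {Rl : G → G → L → ℝ} {s : G → G}

theorem olaw_ex (h : LawOK π Rl s) (a : G → G → ℝ) (b1 b2 : L → ℝ) :
    ∑ o, olaw π Rl s o * (a o.1.1 o.1.2 + b1 o.2.1 + b2 o.2.2) =
      ∑ x, ∑ y, π x y * (a x y + ∑ z, Rl x y z * b1 z + ∑ z, Rl (s x) (s y) z * b2 z) := by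
  rw [Fintype.sum_prod_type, Fintype.sum_prod_type]
  apply Finset.sum_congr rfl
  intro x _
  apply Finset.sum_congr rfl
  intro y _
  rw [Fintype.sum_prod_type]
  unfold olaw
  simp only
  by_cases h0 : π x y = 0
  · simp [h0]
  have e1 := (h.l1 x y h0).one
  have e2 := (h.l2 x y h0).one
  have key : ∀ z1 : L, ∑ z2, π x y * (Rl x y z1 * Rl (s x) (s y) z2) * (a x y + b1 z1 + b2 z2) =
      π x y * (Rl x y z1 * (a x y + b1 z1) + Rl x y z1 * ∑ z, Rl (s x) (s y) z * b2 z) := by
    intro z1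
    have : ∀ z2, π x y * (Rl x y z1 * Rl (s x) (s y) z2) * (a x y + b1 z1 + b2 z2) =
        π x y * (Rl x y z1 * (a x y + b1 z1)) * Rl (s x) (s y) z2 +
          π x y * Rl x y z1 * (Rl (s x) (s y) z2 * b2 z2) := by
      intro z2; ring
    rw [Finset.sum_congr rfl (fun z2 _ => this z2), Finset.sum_add_distrib, ← Finset.mul_sum,
      ← Finset.mul_sum, e2]
    ring
  rw [Finset.sum_congr rfl (fun z1 _ => key z1), ← Finset.mul_sum, Finset.sum_add_distrib,
    ← Finset.sum_mul, e1, one_mul]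
  congr 1
  have : ∀ z1 : L, Rl x y z1 * (a x y + b1 z1) = a x y * Rl x y z1 + Rl x y z1 * b1 z1 := by
    intro z1; ring
  rw [Finset.sum_congr rfl (fun z1 _ => this z1), Finset.sum_add_distrib, ← Finset.mul_sum, e1,
    mul_one]

theorem olaw_nn (h : LawOK π Rl s) (o : (G × G) × L × L) : 0 ≤ olaw π Rl s o := by
  unfold olaw
  by_cases h0 : π o.1.1 o.1.2 = 0
  · simp [h0]
  · exact mul_nonneg (h.nn _ _) (mul_nonneg ((h.l1 _ _ h0).nn _) ((h.l2 _ _ h0).nn _))

theorem olaw_isPr (h : LawOK π Rl s) : IsPr (olaw π Rl s) := by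
  refine ⟨olaw_nn h, ?_⟩
  have := olaw_ex h (fun _ _ => 1) (fun _ => 0) (fun _ => 0)
  simp only [add_zero, mul_one, mul_zero, Finset.sum_const_zero] at this
  rw [this, h.one]

/-- Touched objects. -/
def tch (s : G → G) (uses : L → Finset E) (o : (G × G) × L × L) : Finset (G ⊕ E) :=
  ({Sum.inl o.1.1, Sum.inl o.1.2, Sum.inl (s o.1.1), Sum.inl (s o.1.2)} : Finset (G ⊕ E)) ∪
    ((uses o.2.1).image Sum.inr ∪ (uses o.2.2).image Sum.inr)

theorem sum_union_le' {D : Type*} [DecidableEq D] (f : D → ℝ) (hf : ∀ d, 0 ≤ f d)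
    (a b : Finset D) : ∑ d ∈ a ∪ b, f d ≤ ∑ d ∈ a, f d + ∑ d ∈ b, f d := by
  rw [← Finset.sum_union_inter]
  have := Finset.sum_nonneg (s := a ∩ b) (f := f) (fun d _ => hf d)
  linarith

theorem sum_insert_le' {D : Type*} [DecidableEq D] (f : D → ℝ) (hf : ∀ d, 0 ≤ f d)
    (a : D) (b : Finset D) : ∑ d ∈ insert a b, f d ≤ f a + ∑ d ∈ b, f d := by
  by_cases h : a ∈ b
  · rw [Finset.insert_eq_of_mem h]; have := hf a; linarith
  · rw [Finset.sum_insert h]

theorem wt_le (uses : L → Finset E) (w : G ⊕ E → ℝ) (hw : ∀ d, 0 ≤ w d)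
    (o : (G × G) × L × L) :
    wtO (tch s uses) w o ≤ (w (Sum.inl o.1.1) + w (Sum.inl o.1.2) + w (Sum.inl (s o.1.1)) +
      w (Sum.inl (s o.1.2))) + ∑ e ∈ uses o.2.1, w (Sum.inr e) + ∑ e ∈ uses o.2.2, w (Sum.inr e) := by
  unfold wtO tch
  refine le_trans (sum_union_le' w hw _ _) ?_
  have h1 := sum_union_le' w hw ((uses o.2.1).image Sum.inr) ((uses o.2.2).image Sum.inr)
  rw [Finset.sum_image (fun a _ b _ h => Sum.inr_injective h),
    Finset.sum_image (fun a _ b _ h => Sum.inr_injective h)] at h1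
  have h2 := sum_insert_le' w hw (Sum.inl o.1.1)
    ({Sum.inl o.1.2, Sum.inl (s o.1.1), Sum.inl (s o.1.2)} : Finset (G ⊕ E))
  have h3 := sum_insert_le' w hw (Sum.inl o.1.2)
    ({Sum.inl (s o.1.1), Sum.inl (s o.1.2)} : Finset (G ⊕ E))
  have h4 := sum_insert_le' w hw (Sum.inl (s o.1.1))
    ({Sum.inl (s o.1.2)} : Finset (G ⊕ E))
  rw [Finset.sum_singleton] at h4
  linarith

/-- Probability that the link uses `e`. -/
noncomputable def PR (Rl : G → G → L → ℝ) (uses : L → Finset E) (x y : G) (e : E) : ℝ :=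
  Pr (Rl x y) (fun z => e ∈ uses z)

theorem ex_uses (Rl : G → G → L → ℝ) (uses : L → Finset E) (w : E → ℝ) (x y : G) :
    ∑ z, Rl x y z * ∑ e ∈ uses z, w e = ∑ e, w e * PR Rl uses x y e := by
  unfold PR Pr
  simp only [Finset.mul_sum]
  rw [Finset.sum_comm]
  apply Finset.sum_congr rfl
  intro z _
  rw [← Finset.sum_filter_add_sum_filter_not Finset.univ (fun e => e ∈ uses z)]
  have h1 : ∑ e ∈ Finset.univ.filter (fun e => ¬ e ∈ uses z), w e * (Rl x y z * ind (e ∈ uses z)) =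
      0 := by
    apply Finset.sum_eq_zero
    intro e he
    rw [Finset.mem_filter] at he
    rw [ind_not he.2]; ring
  rw [h1, add_zero]
  have h2 : Finset.univ.filter (fun e => e ∈ uses z) = uses z := by ext; simp
  rw [h2]
  apply Finset.sum_congr rfl
  intro e he
  rw [ind_of he]; ring

theorem ex_wt_le (h : LawOK π Rl s) (uses : L → Finset E) (w : G ⊕ E → ℝ) (hw : ∀ d, 0 ≤ w d) :
    Ex (olaw π Rl s) (wtO (tch s uses) w) ≤ ∑ x, ∑ y, π x y *
      ((w (Sum.inl x) + w (Sum.inl y) + w (Sum.inl (s x)) + w (Sum.inl (s y))) +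
        ∑ e, w (Sum.inr e) * PR Rl uses x y e + ∑ e, w (Sum.inr e) * PR Rl uses (s x) (s y) e) := by
  have h1 := olaw_ex h (fun x y => w (Sum.inl x) + w (Sum.inl y) + w (Sum.inl (s x)) +
    w (Sum.inl (s y))) (fun z => ∑ e ∈ uses z, w (Sum.inr e)) (fun z => ∑ e ∈ uses z, w (Sum.inr e))
  simp only [ex_uses] at h1
  rw [← h1]
  unfold Ex
  apply Finset.sum_le_sum
  intro o _
  exact mul_le_mul_of_nonneg_left (wt_le uses w hw o) (olaw_nn h o)

end abs

section fam

variable {G L E κ : Type*} [Fintype G] [Fintype L] [Fintype E] [Fintype κ] [DecidableEq G]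
  [DecidableEq E]
variable {π : κ → G → G → ℝ} {Rl : G → G → L → ℝ} {s : G → G}

theorem star_sum (V : G → Prop) (f w : G → ℝ) (p : ℝ) (hp : 0 ≤ p) (hw : ∀ u, 0 ≤ w u)
    (hf : ∀ x, f x ≤ p * ind (V x)) (h2 : ∀ u, ∑ x, ind (V x ∧ s x = u) ≤ 2) :
    ∑ x, f x * w (s x) ≤ 2 * p * ∑ u, w u := by
  have h1 : ∑ x, f x * w (s x) ≤ ∑ x, p * ∑ u, ind (V x ∧ s x = u) * w u := by
    apply Finset.sum_le_sum
    intro x _
    have : ∑ u, ind (V x ∧ s x = u) * w u = ind (V x) * w (s x) := by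
      rw [Finset.sum_eq_single (s x)]
      · rw [ind_and, ind_of (rfl : s x = s x), mul_one]
      · intro u _ hu
        rw [ind_not (fun h => hu h.2.symm), zero_mul]
      · intro h; exact absurd (Finset.mem_univ _) h
    rw [this, ← mul_assoc]
    exact mul_le_mul_of_nonneg_right (hf x) (hw _)
  refine le_trans h1 ?_
  rw [← Finset.mul_sum, Finset.sum_comm]
  have h3 : ∑ u, ∑ x, ind (V x ∧ s x = u) * w u ≤ ∑ u, 2 * w u := by
    apply Finset.sum_le_sum
    intro u _
    rw [← Finset.sum_mul]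
    exact mul_le_mul_of_nonneg_right (h2 u) (hw u)
  rw [← Finset.mul_sum] at h3
  have := mul_le_mul_of_nonneg_left h3 hp
  linarith

theorem fam_mean (hl : ∀ p, LawOK (π p) Rl s) (uses : L → Finset E) (w : G ⊕ E → ℝ)
    (hw : ∀ d, 0 ≤ w d) (V : G → Prop) (Adm : G → G → Prop) (p1 Λ : ℝ) (hp1 : 0 ≤ p1)
    (hrow : ∀ x, ∑ p, ∑ y, π p x y ≤ p1) (hcol : ∀ y, ∑ p, ∑ x, π p x y ≤ p1)
    (hsupp : ∀ p x y, π p x y ≠ 0 → V x ∧ V y ∧ Adm x y ∧ Adm (s x) (s y))
    (h2 : ∀ u, ∑ x, ind (V x ∧ s x = u) ≤ 2)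
    (hload : ∀ (Q : G → G → ℝ) (q : ℝ), (∀ x y, 0 ≤ Q x y) → (∀ x y, Q x y ≠ 0 → Adm x y) →
      (∀ x, ∑ y, Q x y ≤ q) → (∀ y, ∑ x, Q x y ≤ q) → ∀ e,
      ∑ x, ∑ y, Q x y * PR Rl uses x y e ≤ q * Λ) :
    ∑ p, Ex (olaw (π p) Rl s) (wtO (tch s uses) w) ≤
      6 * p1 * ∑ u, w (Sum.inl u) + 3 * p1 * Λ * ∑ e, w (Sum.inr e) := by
  classical
  set Q : G → G → ℝ := fun x y => ∑ p, π p x y with hQ
  have hQ0 : ∀ x y, 0 ≤ Q x y := fun x y => Finset.sum_nonneg (fun p _ => (hl p).nn x y)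
  have hQs : ∀ x y, Q x y ≠ 0 → V x ∧ V y ∧ Adm x y ∧ Adm (s x) (s y) := by
    intro x y h
    by_contra hcon
    apply h
    apply Finset.sum_eq_zero
    intro p _
    by_contra h0
    exact hcon (hsupp p x y h0)
  have hQr : ∀ x, ∑ y, Q x y ≤ p1 := by
    intro x
    have := hrow x
    rw [Finset.sum_comm] at this
    exact this
  have hQc : ∀ y, ∑ x, Q x y ≤ p1 := by
    intro y
    have := hcol y
    rw [Finset.sum_comm] at this
    exact this
  have hQrV : ∀ x, ∑ y, Q x y ≤ p1 * ind (V x) := by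
    intro x
    by_cases hx : V x
    · rw [ind_of hx, mul_one]; exact hQr x
    · rw [ind_not hx, mul_zero]
      apply le_of_eq
      apply Finset.sum_eq_zero
      intro y _
      by_contra h0
      exact hx (hQs x y h0).1
  have hQcV : ∀ y, ∑ x, Q x y ≤ p1 * ind (V y) := by
    intro y
    by_cases hy : V y
    · rw [ind_of hy, mul_one]; exact hQc y
    · rw [ind_not hy, mul_zero]
      apply le_of_eq
      apply Finset.sum_eq_zero
      intro x _
      by_contra h0
      exact hy (hQs x y h0).2.1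
  -- sum over pickers
  have hA : ∑ p, Ex (olaw (π p) Rl s) (wtO (tch s uses) w) ≤ ∑ x, ∑ y, Q x y *
      ((w (Sum.inl x) + w (Sum.inl y) + w (Sum.inl (s x)) + w (Sum.inl (s y))) +
        ∑ e, w (Sum.inr e) * PR Rl uses x y e + ∑ e, w (Sum.inr e) * PR Rl uses (s x) (s y) e) := by
    refine le_trans (Finset.sum_le_sum (fun p _ => ex_wt_le (hl p) uses w hw)) (le_of_eq ?_)
    rw [Finset.sum_comm]
    apply Finset.sum_congr rfl
    intro x _
    rw [Finset.sum_comm]
    apply Finset.sum_congr rfl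
    intro y _
    simp only [hQ]
    rw [Finset.sum_mul]
  refine le_trans hA ?_
  -- split
  have hsplit : ∀ x y, Q x y *
      ((w (Sum.inl x) + w (Sum.inl y) + w (Sum.inl (s x)) + w (Sum.inl (s y))) +
        ∑ e, w (Sum.inr e) * PR Rl uses x y e + ∑ e, w (Sum.inr e) * PR Rl uses (s x) (s y) e) =
      Q x y * w (Sum.inl x) + Q x y * w (Sum.inl y) + Q x y * w (Sum.inl (s x)) +
        Q x y * w (Sum.inl (s y)) + ∑ e, w (Sum.inr e) * (Q x y * PR Rl uses x y e) +
        ∑ e, w (Sum.inr e) * (Q x y * PR Rl uses (s x) (s y) e) := by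
    intro x y
    have e1 : ∑ e, w (Sum.inr e) * (Q x y * PR Rl uses x y e) =
        Q x y * ∑ e, w (Sum.inr e) * PR Rl uses x y e := by
      rw [Finset.mul_sum]; apply Finset.sum_congr rfl; intro e _; ring
    have e2 : ∑ e, w (Sum.inr e) * (Q x y * PR Rl uses (s x) (s y) e) =
        Q x y * ∑ e, w (Sum.inr e) * PR Rl uses (s x) (s y) e := by
      rw [Finset.mul_sum]; apply Finset.sum_congr rfl; intro e _; ring
    rw [e1, e2]; ring
  simp only [hsplit, Finset.sum_add_distrib]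
  have t1 : ∑ x, ∑ y, Q x y * w (Sum.inl x) ≤ p1 * ∑ u, w (Sum.inl u) := by
    rw [Finset.mul_sum]
    apply Finset.sum_le_sum
    intro x _
    rw [← Finset.sum_mul]
    exact mul_le_mul_of_nonneg_right (hQr x) (hw _)
  have t2 : ∑ x, ∑ y, Q x y * w (Sum.inl y) ≤ p1 * ∑ u, w (Sum.inl u) := by
    rw [Finset.sum_comm, Finset.mul_sum]
    apply Finset.sum_le_sum
    intro y _
    rw [← Finset.sum_mul]
    exact mul_le_mul_of_nonneg_right (hQc y) (hw _)
  have t3 : ∑ x, ∑ y, Q x y * w (Sum.inl (s x)) ≤ 2 * p1 * ∑ u, w (Sum.inl u) := by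
    have := star_sum (s := s) V (fun x => ∑ y, Q x y) (fun u => w (Sum.inl u)) p1 hp1
      (fun u => hw _) hQrV h2
    refine le_trans (le_of_eq ?_) this
    apply Finset.sum_congr rfl
    intro x _
    rw [Finset.sum_mul]
  have t4 : ∑ x, ∑ y, Q x y * w (Sum.inl (s y)) ≤ 2 * p1 * ∑ u, w (Sum.inl u) := by
    have := star_sum (s := s) V (fun y => ∑ x, Q x y) (fun u => w (Sum.inl u)) p1 hp1
      (fun u => hw _) hQcV h2
    refine le_trans (le_of_eq ?_) this
    rw [Finset.sum_comm]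
    apply Finset.sum_congr rfl
    intro x _
    rw [Finset.sum_mul]
  have t5 : ∑ x, ∑ y, ∑ e, w (Sum.inr e) * (Q x y * PR Rl uses x y e) ≤
      p1 * Λ * ∑ e, w (Sum.inr e) := by
    have e1 : ∑ x, ∑ y, ∑ e, w (Sum.inr e) * (Q x y * PR Rl uses x y e) =
        ∑ e, w (Sum.inr e) * ∑ x, ∑ y, Q x y * PR Rl uses x y e := by
      have : ∀ x, ∑ y, ∑ e, w (Sum.inr e) * (Q x y * PR Rl uses x y e) =
          ∑ e, w (Sum.inr e) * ∑ y, Q x y * PR Rl uses x y e := by
        intro x
        rw [Finset.sum_comm]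
        apply Finset.sum_congr rfl
        intro e _
        rw [Finset.mul_sum]
      rw [Finset.sum_congr rfl (fun x _ => this x), Finset.sum_comm]
      apply Finset.sum_congr rfl
      intro e _
      rw [Finset.mul_sum]
    rw [e1, Finset.mul_sum]
    apply Finset.sum_le_sum
    intro e _
    rw [mul_comm (p1 * Λ)]
    apply mul_le_mul_of_nonneg_left _ (hw _)
    exact hload Q p1 hQ0 (fun x y h => (hQs x y h).2.2.1) hQr hQc e
  -- the starred law
  set Q' : G → G → ℝ := fun x' y' => ∑ x, ∑ y, Q x y * ind (s x = x' ∧ s y = y') with hQ'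
  have hQ'0 : ∀ x y, 0 ≤ Q' x y := fun x y => Finset.sum_nonneg (fun _ _ =>
    Finset.sum_nonneg (fun _ _ => mul_nonneg (hQ0 _ _) (ind_nonneg _)))
  have hQ's : ∀ x' y', Q' x' y' ≠ 0 → Adm x' y' := by
    intro x' y' h
    by_contra hcon
    apply h
    apply Finset.sum_eq_zero
    intro x _
    apply Finset.sum_eq_zero
    intro y _
    by_contra h0
    have h1 : Q x y ≠ 0 := left_ne_zero_of_mul h0
    have h2 : ind (s x = x' ∧ s y = y') ≠ 0 := right_ne_zero_of_mul h0
    have h3 : s x = x' ∧ s y = y' := by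
      by_contra h4
      exact h2 (ind_not h4)
    have h5 := (hQs x y h1).2.2.2
    rw [h3.1, h3.2] at h5
    exact hcon h5
  have hQ'r : ∀ x', ∑ y', Q' x' y' ≤ 2 * p1 := by
    intro x'
    have e1 : ∑ y', Q' x' y' = ∑ x, (∑ y, Q x y) * ind (s x = x') := by
      simp only [hQ']
      rw [Finset.sum_comm]
      apply Finset.sum_congr rfl
      intro x _
      rw [Finset.sum_comm, Finset.sum_mul]
      apply Finset.sum_congr rfl
      intro y _
      rw [← Finset.mul_sum]
      congr 1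
      rw [Finset.sum_eq_single (s y)]
      · rw [ind_and, ind_of (rfl : s y = s y), mul_one]
      · intro u _ hu
        exact ind_not (fun h => hu h.2.symm)
      · intro h; exact absurd (Finset.mem_univ _) h
    rw [e1]
    have := star_sum (s := s) V (fun x => ∑ y, Q x y) (fun u => ind (u = x')) p1 hp1
      (fun u => ind_nonneg _) hQrV h2
    refine le_trans this (le_of_eq ?_)
    rw [Finset.sum_eq_single x']
    · rw [ind_of rfl, mul_one]
    · intro u _ hu; exact ind_not hu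
    · intro h; exact absurd (Finset.mem_univ _) h
  have hQ'c : ∀ y', ∑ x', Q' x' y' ≤ 2 * p1 := by
    intro y'
    have e1 : ∑ x', Q' x' y' = ∑ y, (∑ x, Q x y) * ind (s y = y') := by
      simp only [hQ']
      have e2 : ∀ x', ∑ x, ∑ y, Q x y * ind (s x = x' ∧ s y = y') =
          ∑ y, ∑ x, Q x y * ind (s x = x' ∧ s y = y') := fun x' => Finset.sum_comm
      rw [Finset.sum_congr rfl (fun x' _ => e2 x'), Finset.sum_comm]
      apply Finset.sum_congr rfl
      intro y _
      rw [Finset.sum_comm, Finset.sum_mul]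
      apply Finset.sum_congr rfl
      intro x _
      rw [← Finset.mul_sum]
      congr 1
      rw [Finset.sum_eq_single (s x)]
      · rw [ind_and, ind_of (rfl : s x = s x), one_mul]
      · intro u _ hu
        exact ind_not (fun h => hu h.1.symm)
      · intro h; exact absurd (Finset.mem_univ _) h
    rw [e1]
    have := star_sum (s := s) V (fun y => ∑ x, Q x y) (fun u => ind (u = y')) p1 hp1
      (fun u => ind_nonneg _) hQcV h2
    refine le_trans this (le_of_eq ?_)
    rw [Finset.sum_eq_single y']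
    · rw [ind_of rfl, mul_one]
    · intro u _ hu; exact ind_not hu
    · intro h; exact absurd (Finset.mem_univ _) h
  have t6 : ∑ x, ∑ y, ∑ e, w (Sum.inr e) * (Q x y * PR Rl uses (s x) (s y) e) ≤
      2 * p1 * Λ * ∑ e, w (Sum.inr e) := by
    have e1 : ∑ x, ∑ y, ∑ e, w (Sum.inr e) * (Q x y * PR Rl uses (s x) (s y) e) =
        ∑ e, w (Sum.inr e) * ∑ x, ∑ y, Q x y * PR Rl uses (s x) (s y) e := by
      have : ∀ x, ∑ y, ∑ e, w (Sum.inr e) * (Q x y * PR Rl uses (s x) (s y) e) =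
          ∑ e, w (Sum.inr e) * ∑ y, Q x y * PR Rl uses (s x) (s y) e := by
        intro x
        rw [Finset.sum_comm]
        apply Finset.sum_congr rfl
        intro e _
        rw [Finset.mul_sum]
      rw [Finset.sum_congr rfl (fun x _ => this x), Finset.sum_comm]
      apply Finset.sum_congr rfl
      intro e _
      rw [Finset.mul_sum]
    rw [e1, Finset.mul_sum]
    apply Finset.sum_le_sum
    intro e _
    rw [mul_comm (2 * p1 * Λ)]
    apply mul_le_mul_of_nonneg_left _ (hw _)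
    have e3 : ∑ x, ∑ y, Q x y * PR Rl uses (s x) (s y) e =
        ∑ x', ∑ y', Q' x' y' * PR Rl uses x' y' e := by
      have e4 : ∀ x y, Q x y * PR Rl uses (s x) (s y) e =
          ∑ x', ∑ y', Q x y * ind (s x = x' ∧ s y = y') * PR Rl uses x' y' e := by
        intro x y
        rw [Finset.sum_eq_single (s x), Finset.sum_eq_single (s y)]
        · rw [ind_of ⟨rfl, rfl⟩, mul_one]
        · intro u _ hu
          rw [ind_not (fun h => hu h.2.symm)]; ring
        · intro h; exact absurd (Finset.mem_univ _) h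
        · intro u _ hu
          apply Finset.sum_eq_zero
          intro u' _
          rw [ind_not (fun h => hu h.1.symm)]; ring
        · intro h; exact absurd (Finset.mem_univ _) h
      have e5 : ∀ x' y', Q' x' y' * PR Rl uses x' y' e =
          ∑ x, ∑ y, Q x y * ind (s x = x' ∧ s y = y') * PR Rl uses x' y' e := by
        intro x' y'
        simp only [hQ']
        rw [Finset.sum_mul]
        apply Finset.sum_congr rfl
        intro x _
        rw [Finset.sum_mul]
      simp only [e4, e5]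
      have e6 : ∀ F : G → G → G → G → ℝ, ∑ x, ∑ y, ∑ x', ∑ y', F x y x' y' =
          ∑ x', ∑ y', ∑ x, ∑ y, F x y x' y' := by
        intro F
        have a1 : ∀ x, ∑ y, ∑ x', ∑ y', F x y x' y' = ∑ x', ∑ y', ∑ y, F x y x' y' := by
          intro x
          rw [Finset.sum_comm]
          apply Finset.sum_congr rfl
          intro x' _
          rw [Finset.sum_comm]
        rw [Finset.sum_congr rfl (fun x _ => a1 x), Finset.sum_comm]
        apply Finset.sum_congr rfl
        intro x' _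
        rw [Finset.sum_comm]
      exact e6 _
    rw [e3]
    exact hload Q' (2 * p1) hQ'0 hQ's hQ'r hQ'c e
  linarith

end fam

end Pool.Agent.Lib.MP_688fd0_co.TE.H20
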