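import Pool.Agent.Lib.MP_688fd0_co.TE.IfaceSel

/-! The selection lemma SELECT. -/

namespace Pool.Agent.Lib.MP_688fd0_co.TE.H20

open Pool.Agent.Lib.MP_688fd0_co.TE

universe u v w

/-- Expectation of a function of one coordinate. -/
theorem ex_coord (hP : PIPR_S.{u, v}) (hU : UPD_S.{u, v}) (ι : Type u) [Fintype ι] [DecidableEq ι]
    (α : ι → Type v) [∀ i, Fintype (α i)] (μ : ∀ i, α i → ℝ) (h : ∀ i, IsPr (μ i)) (i : ι)
    (g : α i → ℝ) : Ex (piW μ) (fun ω => g (ω i)) = Ex (μ i) g := by
  rw [hU.1 ι α μ h (fun ω => g (ω i)) i]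
  have h1 := hP.1 ι α μ h
  simp only [Function.update_self]
  unfold Ex
  rw [← Finset.sum_mul, h1.one, one_mul]

theorem pr_mono {Ω : Type*} [Fintype Ω] {μ : Ω → ℝ} (h : IsPr μ) {E F : Ω → Prop}
    (hEF : ∀ ω, μ ω ≠ 0 → E ω → F ω) : Pr μ E ≤ Pr μ F := by
  unfold Pr
  apply Finset.sum_le_sum
  intro ω _
  by_cases h0 : μ ω = 0
  · simp [h0]
  · exact mul_le_mul_of_nonneg_left (ind_mono (hEF ω h0)) (h.nn ω)

theorem pr_or {Ω : Type*} [Fintype Ω] {μ : Ω → ℝ} (h : IsPr μ) (E F : Ω → Prop) :
    Pr μ (fun ω => E ω ∨ F ω) ≤ Pr μ E + Pr μ F := by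
  unfold Pr
  rw [← Finset.sum_add_distrib]
  apply Finset.sum_le_sum
  intro ω _
  rw [← mul_add]
  apply mul_le_mul_of_nonneg_left _ (h.nn ω)
  by_cases hE : E ω
  · rw [ind_of hE]
    have := ind_le_one (E ω ∨ F ω)
    have := ind_nonneg (F ω)
    linarith
  · rw [ind_not hE, zero_add]
    exact ind_mono (fun h => h.resolve_left hE)

theorem pr_exists_finset {Ω : Type*} [Fintype Ω] {μ : Ω → ℝ} (h : IsPr μ) {κ : Type*}
    (s : Finset κ) (E : κ → Ω → Prop) :
    Pr μ (fun ω => ∃ i ∈ s, E i ω) ≤ ∑ i ∈ s, Pr μ (E i) := by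
  classical
  induction s using Finset.induction_on with
  | empty =>
    simp only [Finset.notMem_empty, false_and, exists_false, Finset.sum_empty]
    unfold Pr
    simp [ind]
  | insert a s ha ih =>
    rw [Finset.sum_insert ha]
    refine le_trans ?_ (le_trans (pr_or h (E a) (fun ω => ∃ i ∈ s, E i ω)) (by linarith))
    apply pr_mono h
    rintro ω _ ⟨i, hi, hE⟩
    rcases Finset.mem_insert.1 hi with rfl | hi
    · exact Or.inl hE
    · exact Or.inr ⟨i, hi, hE⟩

theorem pr_nonneg {Ω : Type*} [Fintype Ω] {μ : Ω → ℝ} (h : IsPr μ) (E : Ω → Prop) : 0 ≤ Pr μ E :=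
  Finset.sum_nonneg (fun ω _ => mul_nonneg (h.nn ω) (ind_nonneg _))

theorem pr_forall (hP : PIPR_S.{0, v}) (T : ℕ) (O : Type v) [Fintype O] (π : O → ℝ)
    (A : O → Prop) :
    Pr (piW (fun _ : Fin T => π)) (fun a => ∀ t, A (a t)) = (Pr π A) ^ T := by
  have h := hP.2 (Fin T) (fun _ => O) (fun _ => π) (fun _ o => ind (A o))
  have h1 : ∀ a : Fin T → O, ind (∀ t, A (a t)) = ∏ t, ind (A (a t)) := by
    intro a
    by_cases ha : ∀ t, A (a t)
    · rw [ind_of ha]
      symm
      exact Finset.prod_eq_one (fun t _ => ind_of (ha t))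
    · rw [ind_not ha]
      push Not at ha
      obtain ⟨t, ht⟩ := ha
      symm
      exact Finset.prod_eq_zero (Finset.mem_univ t) (ind_not ht)
  unfold Pr
  unfold Ex at h
  rw [Finset.sum_congr rfl (fun a _ => by rw [h1 a]), h]
  simp

theorem select (hP : PIPR_S.{u, v}) (hP0 : PIPR_S.{0, v}) (hU : UPD_S.{u, v}) (hU0 : UPD_S.{0, v})
    (hC : CHERN_S.{u, v}) (hB : BASIC_S.{max u v, 0}) : SELECT_S.{u, v, w} := by
  intro P _ _ O _ D _ ι _ T π touch bad wf m M jt δ ε hπ hε hδ hT hwf hM hm hM1 hmean hexp hnu hbad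
    hfin
  classical
  -- the laws
  have hμ : ∀ p, IsPr (piW (fun _ : Fin T => π p)) := fun p => hP0.1 _ _ _ (fun _ => hπ p)
  set μ : P → (Fin T → O) → ℝ := fun p => piW (fun _ : Fin T => π p) with hμdef
  have hall : IsPr (piW μ) := hP.1 _ _ _ hμ
  have hTr : (1 : ℝ) ≤ T := by exact_mod_cast hT
  have hwt0 : ∀ i o, 0 ≤ wtO touch (wf i) o := fun i o => Finset.sum_nonneg (fun d _ => hwf i d)
  -- the functions
  set g : ι → P → O → ℝ := fun i p o => if π p o = 0 then 0 else wtO touch (wf i) o with hg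
  have hg0 : ∀ i p o, 0 ≤ g i p o := by
    intro i p o
    simp only [hg]
    split
    · exact le_rfl
    · exact hwt0 i o
  have hgM : ∀ i p o, g i p o ≤ M i := by
    intro i p o
    simp only [hg]
    split
    · exact (hM i).le
    · exact hM1 i p o (by assumption)
  have hgE : ∀ i p, Ex (π p) (g i p) = Ex (π p) (wtO touch (wf i)) := by
    intro i p
    unfold Ex
    apply Finset.sum_congr rfl
    intro o _
    simp only [hg]
    by_cases h0 : π p o = 0
    · simp [h0]
    · simp [h0]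
  set f : ι → P → (Fin T → O) → ℝ := fun i p a => ∑ t, g i p (a t) with hf
  have hfE : ∀ i p, Ex (μ p) (f i p) = T * Ex (π p) (wtO touch (wf i)) := by
    intro i p
    have h1 : Ex (μ p) (f i p) = ∑ t, Ex (μ p) (fun a => g i p (a t)) := by
      unfold Ex
      simp only [hf, Finset.mul_sum]
      exact Finset.sum_comm
    rw [h1]
    have h2 : ∀ t : Fin T, Ex (μ p) (fun a => g i p (a t)) = Ex (π p) (wtO touch (wf i)) := by
      intro t
      rw [← hgE i p]
      exact ex_coord hP0 hU0 (Fin T) (fun _ => O) (fun _ => π p) (fun _ => hπ p) t (g i p)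
    rw [Finset.sum_congr rfl (fun t _ => h2 t)]
    simp
  -- Chernoff
  have hch : ∀ i, Pr (piW μ) (fun ω => 2 * m i ≤ ∑ p, f i p (ω p)) ≤ δ := by
    intro i
    have h := hC P (fun _ => Fin T → O) μ hμ (fun p => f i p) (T * M i) (m i) (m i)
      (mul_pos (by linarith) (hM i)) (hm i)
      (fun p a => Finset.sum_nonneg (fun t _ => hg0 i p (a t)))
      (fun p a => by
        refine le_trans (Finset.sum_le_sum (fun t _ => hgM i p (a t))) ?_
        simp)
      (by
        refine le_trans (le_of_eq ?_) (hmean i)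
        rw [Finset.mul_sum]
        exact Finset.sum_congr rfl (fun p _ => hfE i p))
      (by linarith [hm i])
    refine le_trans ?_ (le_trans h (le_trans (le_of_eq ?_) (hexp i)))
    · apply pr_mono hall
      intro ω _ hω
      linarith
    · congr 1
      have h1 := hm i
      have h2 := hM i
      field_simp
  -- the bad event of a chooser
  set DD : (P → Fin T → O) → P → Finset ((P × Fin T)) := fun _ p =>
    (Finset.univ.filter (fun q : P × Fin T => q.1 ≠ p)) with hDD
  set A : (P → Fin T → O) → P → O → Prop := fun ω p o =>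
    bad p o ∨ ∃ q ∈ DD ω p, ¬ Disjoint (touch o) (touch (ω q.1 q.2)) with hA
  set Sm : (P → Fin T → O) → P → ℝ := fun ω p =>
    ∑ q ∈ DD ω p, wtO touch (wf (jt p)) (ω q.1 q.2) with hSm
  have hPA : ∀ ω p, Sm ω p ≤ 2 * m (jt p) → Pr (π p) (A ω p) ≤ ε := by
    intro ω p hs
    refine le_trans (pr_or (hπ p) _ _) (le_trans ?_ (hbad p))
    have h1 : Pr (π p) (fun o => ∃ q ∈ DD ω p, ¬ Disjoint (touch o) (touch (ω q.1 q.2))) ≤
        ∑ q ∈ DD ω p, Pr (π p) (fun o => ¬ Disjoint (touch o) (touch (ω q.1 q.2))) :=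
      pr_exists_finset (hπ p) _ _
    have h2 : ∀ q : P × Fin T, Pr (π p) (fun o => ¬ Disjoint (touch o) (touch (ω q.1 q.2))) ≤
        wtO touch (wf (jt p)) (ω q.1 q.2) := by
      intro q
      refine le_trans ?_ (Finset.sum_le_sum (fun d _ => hnu p d))
      refine le_trans ?_ (pr_exists_finset (hπ p) (touch (ω q.1 q.2)) (fun d o => d ∈ touch o))
      apply pr_mono (hπ p)
      intro o _ ho
      rw [Finset.not_disjoint_iff] at ho
      obtain ⟨d, h1, h2⟩ := ho
      exact ⟨d, h2, h1⟩
    have h3 := Finset.sum_le_sum (s := DD ω p) (fun q _ => h2 q)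
    have h4 : ∑ q ∈ DD ω p, wtO touch (wf (jt p)) (ω q.1 q.2) = Sm ω p := rfl
    linarith
  have hupd : ∀ ω p (a : Fin T → O), Sm (Function.update ω p a) p = Sm ω p := by
    intro ω p a
    simp only [hSm]
    apply Finset.sum_congr rfl
    intro q hq
    simp only [hDD, Finset.mem_filter, Finset.mem_univ, true_and] at hq
    rw [Function.update_of_ne hq]
  have hAupd : ∀ ω p (a : Fin T → O) o, A (Function.update ω p a) p o ↔ A ω p o := by
    intro ω p a o
    simp only [hA]
    apply or_congr Iff.rfl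
    apply exists_congr
    intro q
    apply and_congr_right
    intro hq
    simp only [hDD, Finset.mem_filter, Finset.mem_univ, true_and] at hq
    rw [Function.update_of_ne hq]
  have hE : ∀ p, Pr (piW μ) (fun ω => (∀ t, A ω p (ω p t)) ∧ Sm ω p ≤ 2 * m (jt p)) ≤ ε ^ T := by
    intro p
    apply hU.2 P (fun _ => Fin T → O) μ hμ _ p
    intro ω
    by_cases hs : Sm ω p ≤ 2 * m (jt p)
    · refine le_trans (pr_mono (hμ p) (F := fun a => ∀ t, A ω p (a t)) ?_) ?_
      · intro a _ ha t
        have := ha.1 t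
        rw [hAupd, Function.update_self] at this
        exact this
      · have := pr_forall hP0 T O (π p) (A ω p)
        rw [this]
        exact pow_le_pow_left₀ (pr_nonneg (hπ p) _) (hPA ω p hs) T
    · have : Pr (μ p) (fun a => (∀ t, A (Function.update ω p a) p (Function.update ω p a p t)) ∧
          Sm (Function.update ω p a) p ≤ 2 * m (jt p)) = 0 := by
        unfold Pr
        apply Finset.sum_eq_zero
        intro a _
        rw [ind_not, mul_zero]
        intro h
        have h2 := h.2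
        rw [hupd] at h2
        exact hs h2
      rw [this]
      positivity
  -- a good outcome
  have hlt : Pr (piW μ) (fun ω => (∃ i : ι, 2 * m i ≤ ∑ p, f i p (ω p)) ∨
      (∃ p : P, (∀ t, A ω p (ω p t)) ∧ Sm ω p ≤ 2 * m (jt p))) < 1 := by
    refine lt_of_le_of_lt (pr_or hall _ _) (lt_of_le_of_lt (add_le_add ?_ ?_) hfin)
    · have h1 := pr_exists_finset hall (Finset.univ : Finset ι)
        (fun i ω => 2 * m i ≤ ∑ p, f i p (ω p))
      simp only [Finset.mem_univ, true_and] at h1
      refine le_trans h1 (le_trans (Finset.sum_le_sum (fun i _ => hch i)) ?_)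
      simp
    · have h1 := pr_exists_finset hall (Finset.univ : Finset P)
        (fun p ω => (∀ t, A ω p (ω p t)) ∧ Sm ω p ≤ 2 * m (jt p))
      simp only [Finset.mem_univ, true_and] at h1
      refine le_trans h1 (le_trans (Finset.sum_le_sum (fun p _ => hE p)) ?_)
      simp
  obtain ⟨ω, hω, hno⟩ := (hB _ (piW μ) hall).2.2.2.2.1 _ hlt
  push Not at hno
  obtain ⟨hn1, hn2⟩ := hno
  have hsupp : ∀ p t, π p (ω p t) ≠ 0 := by
    intro p t h0
    have : piW μ ω = 0 := by
      unfold piW
      apply Finset.prod_eq_zero (Finset.mem_univ p)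
      simp only [hμdef]
      unfold piW
      exact Finset.prod_eq_zero (Finset.mem_univ t) h0
    rw [this] at hω
    exact lt_irrefl _ hω
  have hfw : ∀ i p, f i p (ω p) = ∑ t, wtO touch (wf i) (ω p t) := by
    intro i p
    simp only [hf, hg]
    apply Finset.sum_congr rfl
    intro t _
    rw [if_neg (hsupp p t)]
  refine ⟨ω, hsupp, ?_, ?_⟩
  · intro i
    have := hn1 i
    rw [Finset.sum_congr rfl (fun p _ => hfw i p)] at this
    exact this.le
  · intro p
    have hs : Sm ω p ≤ 2 * m (jt p) := by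
      have h1 := hn1 (jt p)
      rw [Finset.sum_congr rfl (fun p' _ => hfw (jt p) p')] at h1
      refine le_trans ?_ h1.le
      simp only [hSm]
      rw [← Fintype.sum_prod_type' (f := fun p' t' => wtO touch (wf (jt p)) (ω p' t'))]
      apply Finset.sum_le_sum_of_subset_of_nonneg (Finset.subset_univ _)
      intro q _ _
      exact hwt0 _ _
    by_contra hcon
    push Not at hcon
    refine absurd hs (not_le.2 (hn2 p ?_))
    intro t
    simp only [hA]
    by_cases hb : bad p (ω p t)
    · exact Or.inl hb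
    · right
      obtain ⟨p', hp', t', ht'⟩ := hcon t hb
      exact ⟨(p', t'), by simp [hDD, hp'], ht'⟩

end Pool.Agent.Lib.MP_688fd0_co.TE.H20
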