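import Pool.Agent.Lib.MP_688fd0_co.TE.H20.RndNum
import Pool.Agent.Lib.MP_688fd0_co.TE.H20.Select

/-! RND (7.3): one round of random choices. -/

namespace Pool.Agent.Lib.MP_688fd0_co.TE.H20

open Pool.Agent.Lib.MP_688fd0_co.TE

universe u

theorem sum_biUnion_le {A D : Type*} [DecidableEq D] (s : Finset A) (t : A → Finset D)
    (f : D → ℝ) (hf : ∀ d, 0 ≤ f d) :
    ∑ d ∈ s.biUnion t, f d ≤ ∑ a ∈ s, ∑ d ∈ t a, f d := by
  classical
  induction s using Finset.induction_on with
  | empty => simp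
  | insert a s ha ih =>
    rw [Finset.biUnion_insert, Finset.sum_insert ha]
    exact le_trans (sum_union_le' f hf _ _) (by linarith)

section nu

variable {G L E : Type*} [Fintype G] [Fintype L] [Fintype E] [DecidableEq G] [DecidableEq E]
variable {π : G → G → ℝ} {Rl : G → G → L → ℝ} {s : G → G}

theorem nu_eq {D O : Type*} [Fintype D] [DecidableEq D] [Fintype O] (μ : O → ℝ)
    (touch : O → Finset D) (d0 : D) :
    Pr μ (fun o => d0 ∈ touch o) = Ex μ (wtO touch (fun d => ind (d = d0))) := by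
  rw [← sum_pr]
  rw [Finset.sum_eq_single d0]
  · rw [ind_of rfl, one_mul]
  · intro d _ hd
    rw [ind_not hd, zero_mul]
  · intro h; exact absurd (Finset.mem_univ _) h

theorem nu_inr (h : LawOK π Rl s) (uses : L → Finset E) (e : E) (C : ℝ)
    (h1 : ∀ x y, π x y ≠ 0 → PR Rl uses x y e ≤ C)
    (h2 : ∀ x y, π x y ≠ 0 → PR Rl uses (s x) (s y) e ≤ C) :
    Pr (olaw π Rl s) (fun o => Sum.inr e ∈ tch s uses o) ≤ 2 * C := by
  rw [nu_eq]
  refine le_trans (ex_wt_le h uses _ (fun d => ind_nonneg _)) ?_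
  calc _ ≤ ∑ x, ∑ y, π x y * (2 * C) := by
        apply Finset.sum_le_sum
        intro x _
        apply Finset.sum_le_sum
        intro y _
        by_cases h0 : π x y = 0
        · simp [h0]
        apply mul_le_mul_of_nonneg_left _ (h.nn x y)
        have e1 : ∀ x' y', ∑ e', ind ((Sum.inr e' : G ⊕ E) = Sum.inr e) * PR Rl uses x' y' e' =
            PR Rl uses x' y' e := by
          intro x' y'
          rw [Finset.sum_eq_single e]
          · rw [ind_of rfl, one_mul]
          · intro e' _ he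
            rw [ind_not (fun h => he (Sum.inr_injective h)), zero_mul]
          · intro h; exact absurd (Finset.mem_univ _) h
        simp only [e1]
        have e2 : ∀ u : G, ind ((Sum.inl u : G ⊕ E) = Sum.inr e) = 0 :=
          fun u => ind_not (by simp)
        simp only [e2]
        have := h1 x y h0
        have := h2 x y h0
        linarith
    _ = (∑ x, ∑ y, π x y) * (2 * C) := by
        rw [Finset.sum_mul]
        apply Finset.sum_congr rfl
        intro x _
        rw [Finset.sum_mul]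
    _ = 2 * C := by rw [h.one, one_mul]

theorem nu_left (h : LawOK π Rl s) (uses : L → Finset E) (K : ℝ)
    (hK : ∀ z, ((uses z).card : ℝ) ≤ K) :
    ∑ u : G, Pr (olaw π Rl s) (fun o => Sum.inl u ∈ tch s uses o) ≤ 4 := by
  have h1 := sum_pr (olaw π Rl s) (tch s uses) (Sum.elim (fun _ : G => (1 : ℝ)) (fun _ : E => 0))
  rw [Fintype.sum_sum_type] at h1
  simp only [Sum.elim_inl, Sum.elim_inr, one_mul, zero_mul, Finset.sum_const_zero, add_zero] at h1
  rw [h1]
  apply ex_le_of (olaw_isPr h)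
  intro o
  have := wt_sup (s := s) uses (Sum.elim (fun _ : G => (1 : ℝ)) (fun _ : E => 0))
    (by rintro (d | d) <;> simp) 1 0 K (by simp) (by simp) le_rfl hK o
  linarith

theorem nu_right (h : LawOK π Rl s) (uses : L → Finset E) (K : ℝ)
    (hK : ∀ z, ((uses z).card : ℝ) ≤ K) :
    ∑ e : E, Pr (olaw π Rl s) (fun o => Sum.inr e ∈ tch s uses o) ≤ 2 * K := by
  have h1 := sum_pr (olaw π Rl s) (tch s uses) (Sum.elim (fun _ : G => (0 : ℝ)) (fun _ : E => 1))
  rw [Fintype.sum_sum_type] at h1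
  simp only [Sum.elim_inl, Sum.elim_inr, one_mul, zero_mul, Finset.sum_const_zero, zero_add] at h1
  rw [h1]
  apply ex_le_of (olaw_isPr h)
  intro o
  have := wt_sup (s := s) uses (Sum.elim (fun _ : G => (0 : ℝ)) (fun _ : E => 1))
    (by rintro (d | d) <;> simp) 0 1 K (by simp) (by simp) zero_le_one hK o
  linarith

theorem pr_z1 (h : LawOK π Rl s) (A : L → Prop) (C : ℝ)
    (h1 : ∀ x y, π x y ≠ 0 → Pr (Rl x y) A ≤ C) :
    Pr (olaw π Rl s) (fun o => A o.2.1) ≤ C := by
  have e := olaw_ex h (fun _ _ => 0) (fun z => ind (A z)) (fun _ => 0)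
  unfold Pr
  simp only [zero_add, add_zero, mul_zero, Finset.sum_const_zero] at e
  rw [e]
  calc _ ≤ ∑ x, ∑ y, π x y * C := by
        apply Finset.sum_le_sum
        intro x _
        apply Finset.sum_le_sum
        intro y _
        by_cases h0 : π x y = 0
        · simp [h0]
        exact mul_le_mul_of_nonneg_left (h1 x y h0) (h.nn x y)
    _ = (∑ x, ∑ y, π x y) * C := by
        rw [Finset.sum_mul]
        apply Finset.sum_congr rfl
        intro x _
        rw [Finset.sum_mul]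
    _ = C := by rw [h.one, one_mul]

theorem pr_z2 (h : LawOK π Rl s) (A : L → Prop) (C : ℝ)
    (h1 : ∀ x y, π x y ≠ 0 → Pr (Rl (s x) (s y)) A ≤ C) :
    Pr (olaw π Rl s) (fun o => A o.2.2) ≤ C := by
  have e := olaw_ex h (fun _ _ => 0) (fun _ => 0) (fun z => ind (A z))
  unfold Pr
  simp only [zero_add, add_zero, mul_zero, Finset.sum_const_zero] at e
  rw [e]
  calc _ ≤ ∑ x, ∑ y, π x y * C := by
        apply Finset.sum_le_sum
        intro x _
        apply Finset.sum_le_sum
        intro y _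
        by_cases h0 : π x y = 0
        · simp [h0]
        exact mul_le_mul_of_nonneg_left (h1 x y h0) (h.nn x y)
    _ = (∑ x, ∑ y, π x y) * C := by
        rw [Finset.sum_mul]
        apply Finset.sum_congr rfl
        intro x _
        rw [Finset.sum_mul]
    _ = C := by rw [h.one, one_mul]

end nu

theorem rnd (hS : SELECT_S.{u, u, u}) (hPKS : PKS_S.{u}) (hNUM : NUM_S.{u}) : RND_S.{u} := by
  intro G _ _ _ c N g m τ s UE κ _ _ π π1 ι _ S hN hm hst hUE hcκ hcι hSm hpi
  classical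
  obtain ⟨n1, n2, n3, -, -, -, -, n8, n9, n10, -, n12, n13, -⟩ := hNUM G c
  have hk1 : (1 : ℝ) ≤ c.k := by exact_mod_cast c.hk1
  have hT1 : (1 : ℝ) ≤ c.T := by exact_mod_cast c.hT1
  have rn : RN c.X c.b c.k c.T (Fintype.card G) := by
    refine ⟨n1, hk1, hT1, ?_, ?_, n9, n10⟩
    · refine le_trans ?_ n2
      exact le_self_pow₀ (by linarith) (by norm_num)
    · refine le_trans ?_ n3
      exact le_self_pow₀ (by linarith) (by norm_num)
  have hX := rn.Xpos
  have hb := rn.bpos
  have hXn : c.X ≤ (Fintype.card G : ℝ) := by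
    refine le_trans ?_ (le_trans n9 n10)
    exact le_self_pow₀ (by linarith [rn.X1]) (by norm_num)
  have hn6 : (10 ^ 6 : ℝ) ≤ (Fintype.card G : ℝ) := le_trans n1 hXn
  haveI : Nonempty G := ⟨1⟩
  -- links
  set uses : (Fin (3 * c.k) → G × G) → Finset (G × G) := fun z => Finset.univ.image z with huses
  have hPR : ∀ τ' x y e, PR (g.res.Rl τ') uses x y e =
      Pr (g.res.Rl τ' x y) (fun z => ∃ j, z j = e) := by
    intro τ' x y e
    unfold PR
    congr 1
    funext z
    simp [huses]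
  have hK : ∀ z, ((uses z).card : ℝ) ≤ 3 * c.k := by
    intro z
    have : (uses z).card ≤ 3 * c.k := by
      refine le_trans Finset.card_image_le ?_
      simp
    exact_mod_cast this
  have hBL : ∀ t ∈ c.B, t ∈ Lt c.B c.C τ := by
    intro t ht
    unfold Lt
    split
    · exact Finset.mem_union_left _ ht
    · exact ht
  set Adm : G → G → Prop := fun x y => x ≠ y ∧ c.adm τ true 9 x y with hAdm
  have hadm : ∀ p x y, π p x y ≠ 0 → ¬ g.W x ∧ ¬ g.W y ∧ Adm x y ∧ Adm (s x) (s y) := by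
    intro p x y h
    obtain ⟨a1, a2, a3, a4, a5⟩ := hpi.supp p x y h
    refine ⟨a1, a2, ⟨a3, ?_⟩, ⟨a4, ?_⟩⟩
    · unfold Ctx.adm
      simp only [if_true]
      exact ⟨1, odd_one, by norm_num, [x⁻¹ * y], rfl, by simpa using a5, by simp⟩
    · unfold Ctx.adm
      simp only [if_true]
      refine ⟨3, by decide, by norm_num, [(s x)⁻¹ * x, x⁻¹ * y, y⁻¹ * s y], rfl, ?_, ?_⟩
      · intro t ht
        simp only [List.mem_cons, List.not_mem_nil, or_false] at ht
        rcases ht with rfl | rfl | rfl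
        · have := c.hB.inv _ (hst.let' x a1)
          rw [mul_inv_rev, inv_inv] at this
          exact hBL _ this
        · exact a5
        · exact hBL _ (hst.let' y a2)
      · simp [mul_assoc]
  have hlaw : ∀ x y, Adm x y → IsPr (g.res.Rl τ x y) := fun x y h => g.res.law τ x y h.1 h.2
  have hl : ∀ p, LawOK (π p) (g.res.Rl τ) s := fun p =>
    ⟨hpi.nn p, hpi.one p, fun x y h => hlaw _ _ (hadm p x y h).2.2.1,
      fun x y h => hlaw _ _ (hadm p x y h).2.2.2⟩
  have htwo : ∀ w, ∑ x, ind (¬ g.W x ∧ s x = w) ≤ 2 := by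
    intro w
    have h1 := hst.two w
    rw [Set.ncard_eq_toFinset_card'] at h1
    refine le_trans (sum_ind_le_card (fun x => ¬ g.W x ∧ s x = w)
      ({v | ¬ g.W v ∧ s v = w} : Set G).toFinset (fun a ha => by simpa using ha)) ?_
    exact_mod_cast h1
  have hp0 : 0 ≤ π1 := by
    refine le_trans ?_ (hpi.row 1)
    exact Finset.sum_nonneg (fun p _ => Finset.sum_nonneg (fun y _ => hpi.nn p 1 y))
  have hLam0 : 0 < c.Lam τ := by
    unfold Ctx.Lam
    split <;> positivity
  have hp990 : π1 ≤ 1 / c.X ^ 990 := by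
    have := hpi.small
    cases τ
    · simpa using this
    · simp only [if_true] at this
      exact le_trans this (rn.cmp (i := 0) (by simp) (by norm_num))
  have hpL : π1 * c.Lam τ ≤ 1 / c.X ^ 180 := by
    have := hpi.small
    cases τ
    · simp only [Ctx.Lam, Bool.false_eq_true, if_false] at this ⊢
      calc π1 * c.X ^ 810 ≤ 1 / c.X ^ 990 * c.X ^ 810 :=
            mul_le_mul_of_nonneg_right this (by positivity)
        _ = 1 / c.X ^ 180 := by
            have : c.X ^ 990 = c.X ^ 180 * c.X ^ 810 := by rw [← pow_add]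
            rw [this]
            field_simp
    · simp only [Ctx.Lam, if_true] at this ⊢
      calc π1 * c.X ^ 6010 ≤ 1 / c.X ^ 100000 * c.X ^ 6010 :=
            mul_le_mul_of_nonneg_right this (by positivity)
        _ = c.X ^ 6010 / c.X ^ 100000 := by ring
        _ ≤ 1 / c.X ^ 180 := rn.cmp le_rfl (by norm_num)
  have hpL0 : 0 ≤ π1 * c.Lam τ := mul_nonneg hp0 hLam0.le
  have hload : ∀ (Q : G → G → ℝ) (q : ℝ), (∀ x y, 0 ≤ Q x y) → (∀ x y, Q x y ≠ 0 → Adm x y) →
      (∀ x, ∑ y, Q x y ≤ q) → (∀ y, ∑ x, Q x y ≤ q) → ∀ e,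
      ∑ x, ∑ y, Q x y * PR (g.res.Rl τ) uses x y e ≤ q * c.Lam τ := by
    intro Q q a1 a2 a3 a4 e
    simp only [hPR]
    exact g.res.r3 τ Q q a1 a2 a3 a4 e
  have hmean : ∀ w : G ⊕ (G × G) → ℝ, (∀ d, 0 ≤ w d) →
      ∑ p, Ex (olaw (π p) (g.res.Rl τ) s) (wtO (tch s uses) w) ≤
      6 * π1 * ∑ u, w (Sum.inl u) + 3 * π1 * c.Lam τ * ∑ e, w (Sum.inr e) := by
    intro w hw
    exact fam_mean hl uses w hw (fun x => ¬ g.W x) Adm π1 (c.Lam τ) hp0 hpi.row hpi.col hadm htwo
      hload
  -- the number of tests of type 2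
  obtain ⟨mm, f, hmm, hf1, hf2⟩ := (hPKS G c).2.2.2.2.2.2.2.2.2.2.2.2.2 4 (by norm_num)
  have hDS : ∀ i, DS (f i) := fun i => (hPKS G c).2.2.2.2.2.2.1 4 (f i) (hf1 i).1
  -- tests
  set w1 : (Bool × G × G) → G ⊕ (G × G) → ℝ := fun a => Sum.elim (fun _ => 0)
    (fun e => if a.2.1 ≠ a.2.2 ∧ c.adm a.1 true 9 a.2.1 a.2.2 then
      PR (g.res.Rl a.1) uses a.2.1 a.2.2 e else 0) with hw1
  set w2 : (Fin mm × G) → G ⊕ (G × G) → ℝ := fun a => Sum.elim (fun u => f a.1 a.2 u)
    (fun _ => 0) with hw2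
  set w3 : ι → G ⊕ (G × G) → ℝ := fun i => Sum.elim (fun u => ind (u ∈ S i)) (fun _ => 0) with hw3
  set w4 : κ → G ⊕ (G × G) → ℝ := fun p d =>
    Pr (olaw (π p) (g.res.Rl τ) s) (fun o => d ∈ tch s uses o) with hw4
  have hw1nn : ∀ a d, 0 ≤ w1 a d := by
    rintro ⟨τ', x, y⟩ (d | d)
    · simp [hw1]
    · simp only [hw1, Sum.elim_inr]
      split_ifs with h
      · exact pr_nn (g.res.law τ' x y h.1 h.2).nn _
      · exact le_rfl
  have hw2nn : ∀ a d, 0 ≤ w2 a d := by
    rintro ⟨i, y⟩ (d | d)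
    · simp only [hw2, Sum.elim_inl]
      exact (hDS i).nn _ _
    · simp [hw2]
  have hw3nn : ∀ a d, 0 ≤ w3 a d := by
    rintro i (d | d)
    · simp only [hw3, Sum.elim_inl]
      exact ind_nonneg _
    · simp [hw3]
  have hw4nn : ∀ a d, 0 ≤ w4 a d := fun p d => pr_nn (olaw_nn (hl p)) _
  -- sup bounds
  have hr2 : ∀ τ' x y, x ≠ y → c.adm τ' true 9 x y → ∀ e,
      PR (g.res.Rl τ') uses x y e ≤ c.X ^ 6010 / c.b := by
    intro τ' x y h1 h2 e
    rw [hPR]
    exact g.res.r2 τ' x y h1 h2 e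
  have hw1sup : ∀ a o, wtO (tch s uses) (w1 a) o ≤ 6 * c.k * c.X ^ 6010 / c.b := by
    rintro ⟨τ', x, y⟩ o
    have := wt_sup (s := s) uses (w1 (τ', x, y)) (hw1nn _) 0 (c.X ^ 6010 / c.b) (3 * c.k)
      (by simp [hw1]) (by
        intro e
        simp only [hw1, Sum.elim_inr]
        split_ifs with h
        · exact hr2 τ' x y h.1 h.2 e
        · positivity) (by positivity) hK o
    refine le_trans this (le_of_eq ?_)
    ring
  have hw2sup : ∀ a o, wtO (tch s uses) (w2 a) o ≤ 4 / c.b := by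
    rintro ⟨i, y⟩ o
    have := wt_sup (s := s) uses (w2 (i, y)) (hw2nn _) (1 / c.b) 0 (3 * c.k)
      (by
        intro u
        simp only [hw2, Sum.elim_inl]
        exact (hf1 i).2 _ _) (by simp [hw2]) le_rfl hK o
    refine le_trans this (le_of_eq ?_)
    ring
  have hw3sup : ∀ a o, wtO (tch s uses) (w3 a) o ≤ 4 := by
    intro i o
    have := wt_sup (s := s) uses (w3 i) (hw3nn _) 1 0 (3 * c.k)
      (by
        intro u
        simp only [hw3, Sum.elim_inl]
        exact ind_le_one _) (by simp [hw3]) le_rfl hK o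
    refine le_trans this (le_of_eq ?_)
    ring
  have hw4l : ∀ p u, w4 p (Sum.inl u) ≤ 6 * π1 := by
    intro p v
    simp only [hw4]
    rw [nu_eq]
    have h1 := hmean (fun d => ind (d = Sum.inl v)) (fun d => ind_nonneg _)
    have h2 : ∑ u : G, ind ((Sum.inl u : G ⊕ (G × G)) = Sum.inl v) = 1 := by
      rw [Finset.sum_eq_single v]
      · exact ind_of rfl
      · intro u _ hu
        exact ind_not (fun h => hu (Sum.inl_injective h))
      · intro h; exact absurd (Finset.mem_univ _) h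
    have h3 : ∑ e : G × G, ind ((Sum.inr e : G ⊕ (G × G)) = Sum.inl v) = 0 :=
      Finset.sum_eq_zero (fun e _ => ind_not (by simp))
    rw [h2, h3, mul_one, mul_zero, add_zero] at h1
    refine le_trans ?_ h1
    exact Finset.single_le_sum (f := fun p => Ex (olaw (π p) (g.res.Rl τ) s)
      (wtO (tch s uses) (fun d => ind (d = Sum.inl v))))
      (fun p' _ => Finset.sum_nonneg (fun o _ => mul_nonneg (olaw_nn (hl p') o)
        (Finset.sum_nonneg (fun d _ => ind_nonneg _)))) (Finset.mem_univ p)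
  have hw4r : ∀ p e, w4 p (Sum.inr e) ≤ 2 * (c.X ^ 6010 / c.b) := by
    intro p e
    simp only [hw4]
    refine nu_inr (hl p) uses e _ ?_ ?_
    · intro x y h
      have := (hadm p x y h).2.2.1
      exact hr2 τ x y this.1 this.2 e
    · intro x y h
      have := (hadm p x y h).2.2.2
      exact hr2 τ _ _ this.1 this.2 e
  have hw4sup : ∀ a o, wtO (tch s uses) (w4 a) o ≤
      24 / c.X ^ 990 + 12 * (c.k * c.X ^ 6010 / c.b) := by
    intro p o
    have := wt_sup (s := s) uses (w4 p) (hw4nn _) (6 * π1) (2 * (c.X ^ 6010 / c.b)) (3 * c.k)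
      (hw4l p) (hw4r p) (by positivity) hK o
    have e1 : 4 * (6 * π1) ≤ 24 / c.X ^ 990 := by
      have : 24 / c.X ^ 990 = 24 * (1 / c.X ^ 990) := by ring
      linarith
    have e2 : 2 * (3 * (c.k : ℝ) * (2 * (c.X ^ 6010 / c.b))) = 12 * (c.k * c.X ^ 6010 / c.b) := by
      ring
    linarith
  -- means
  have hm1 : ∀ a, (c.T : ℝ) * ∑ p, Ex (olaw (π p) (g.res.Rl τ) s) (wtO (tch s uses) (w1 a)) ≤
      1 / (2 * c.X ^ 150) := by
    rintro ⟨τ', x, y⟩
    have h1 := hmean (w1 (τ', x, y)) (hw1nn _)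
    have h2 : ∑ u : G, w1 (τ', x, y) (Sum.inl u) = 0 := Finset.sum_eq_zero (fun u _ => by simp [hw1])
    rw [h2, mul_zero, zero_add] at h1
    have h3 : ∑ e : G × G, w1 (τ', x, y) (Sum.inr e) ≤ 3 * c.k := by
      simp only [hw1, Sum.elim_inr]
      by_cases h : x ≠ y ∧ c.adm τ' true 9 x y
      · simp only [if_pos h]
        have h4 : ∑ e, PR (g.res.Rl τ') uses x y e =
            ∑ z, g.res.Rl τ' x y z * ∑ e ∈ uses z, (1 : ℝ) := by
          rw [ex_uses]
          simp
        rw [h4]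
        have hp := g.res.law τ' x y h.1 h.2
        calc ∑ z, g.res.Rl τ' x y z * ∑ e ∈ uses z, (1 : ℝ) ≤
            ∑ z, g.res.Rl τ' x y z * (3 * c.k) := by
              apply Finset.sum_le_sum
              intro z _
              apply mul_le_mul_of_nonneg_left _ (hp.nn z)
              simpa using hK z
          _ = 3 * c.k := by rw [← Finset.sum_mul, hp.one, one_mul]
      · simp only [if_neg h, Finset.sum_const_zero]
        positivity
    have h5 := rn.mean1 (p := π1) (Λ := c.Lam τ) hpL0 hpL h3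
      (Finset.sum_nonneg (fun e _ => hw1nn _ _))
    refine le_trans (mul_le_mul_of_nonneg_left h1 (by positivity)) h5
  have hm2 : ∀ a, (c.T : ℝ) * ∑ p, Ex (olaw (π p) (g.res.Rl τ) s) (wtO (tch s uses) (w2 a)) ≤
      1 / (2 * c.X ^ 900) := by
    rintro ⟨i, y⟩
    have h1 := hmean (w2 (i, y)) (hw2nn _)
    have h2 : ∑ e : G × G, w2 (i, y) (Sum.inr e) = 0 := Finset.sum_eq_zero (fun u _ => by simp [hw2])
    rw [h2, mul_zero, add_zero] at h1
    have h3 : ∑ u : G, w2 (i, y) (Sum.inl u) = 1 := by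
      simp only [hw2, Sum.elim_inl]
      exact (hDS i).row y
    have h5 := rn.mean2 (p := π1) hp0 hp990 h3.le (by rw [h3]; norm_num)
    exact le_trans (mul_le_mul_of_nonneg_left h1 (by positivity)) h5
  have hm3 : ∀ i, (c.T : ℝ) * ∑ p, Ex (olaw (π p) (g.res.Rl τ) s) (wtO (tch s uses) (w3 i)) ≤
      ((S i).card : ℝ) / (2000 * c.k) := by
    intro i
    have h1 := hmean (w3 i) (hw3nn _)
    have h2 : ∑ e : G × G, w3 i (Sum.inr e) = 0 := Finset.sum_eq_zero (fun u _ => by simp [hw3])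
    rw [h2, mul_zero, add_zero] at h1
    have h3 : ∑ u : G, w3 i (Sum.inl u) ≤ (S i).card := by
      simp only [hw3, Sum.elim_inl]
      exact sum_ind_le_card _ _ (fun a ha => ha)
    have h5 := rn.mean3 (p := π1) (SV := ∑ u : G, w3 i (Sum.inl u)) hp0 hp990
      (Finset.sum_nonneg (fun e _ => hw3nn _ _))
    refine le_trans (mul_le_mul_of_nonneg_left h1 (by positivity)) (le_trans h5 ?_)
    exact div_le_div_of_nonneg_right h3 (by positivity)
  have hm4 : ∀ p', (c.T : ℝ) * ∑ p, Ex (olaw (π p) (g.res.Rl τ) s) (wtO (tch s uses) (w4 p')) ≤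
      1 / c.X ^ 160 := by
    intro p'
    have h1 := hmean (w4 p') (hw4nn _)
    have h2 : ∑ u : G, w4 p' (Sum.inl u) ≤ 4 := nu_left (hl p') uses (3 * c.k) hK
    have h3 : ∑ e : G × G, w4 p' (Sum.inr e) ≤ 6 * c.k := by
      refine le_trans (nu_right (hl p') uses (3 * c.k) hK) (le_of_eq ?_)
      ring
    have h5 := rn.mean4 (p := π1) (Λ := c.Lam τ) hp0 hp990 hpL0 hpL h2
      (Finset.sum_nonneg (fun e _ => hw4nn _ _)) h3 (Finset.sum_nonneg (fun e _ => hw4nn _ _))
    exact le_trans (mul_le_mul_of_nonneg_left h1 (by positivity)) h5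
  -- the exponentials
  have hexpX : ∀ y : ℝ, c.X ≤ y → Real.exp (-y) ≤ 1 / (Fintype.card G : ℝ) ^ 40 := by
    intro y hy
    rw [le_div_iff₀ (by positivity)]
    exact n13 y hy
  -- bad
  set bad : c.Op → Prop := fun o => (∃ j j', o.2.1 j = o.2.2 j') ∨ (∃ j, UE (o.2.1 j)) ∨
    (∃ j, UE (o.2.2 j)) with hbad
  have hbadp : ∀ p, Pr (olaw (π p) (g.res.Rl τ) s) bad ≤
      3 * (c.k * c.X ^ 6010 / c.b) + 2 / c.X ^ 100 := by
    intro p
    have hP := olaw_isPr (hl p)
    refine le_trans (pr_or hP _ _) ?_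
    have h1 : Pr (olaw (π p) (g.res.Rl τ) s) (fun o => ∃ j j', o.2.1 j = o.2.2 j') ≤
        3 * (c.k * c.X ^ 6010 / c.b) := by
      unfold Pr
      refine olaw_ex2 (hl p) (fun _ z1 z2 => ind (∃ j j', z1 j = z2 j')) _ ?_
      intro x y z1 h
      have ha := (hadm p x y h).2.2.2
      have hPr := hlaw _ _ ha
      have e1 : ∑ z2, g.res.Rl τ (s x) (s y) z2 * ind (∃ j j', z1 j = z2 j') ≤
          Pr (g.res.Rl τ (s x) (s y)) (fun z2 => ∃ j ∈ (Finset.univ : Finset (Fin (3 * c.k))),
            ∃ j', z2 j' = z1 j) := by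
        apply Finset.sum_le_sum
        intro z2 _
        apply mul_le_mul_of_nonneg_left _ (hPr.nn z2)
        apply ind_mono
        rintro ⟨j, j', hj⟩
        exact ⟨j, Finset.mem_univ _, j', hj.symm⟩
      refine le_trans e1 (le_trans (pr_exists_finset hPr _ _) ?_)
      calc ∑ j : Fin (3 * c.k), Pr (g.res.Rl τ (s x) (s y)) (fun z2 => ∃ j', z2 j' = z1 j) ≤
          ∑ _j : Fin (3 * c.k), c.X ^ 6010 / c.b :=
            Finset.sum_le_sum (fun j _ => g.res.r2 τ _ _ ha.1 ha.2 _)
        _ = 3 * (c.k * c.X ^ 6010 / c.b) := by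
            rw [Finset.sum_const, Finset.card_univ, Fintype.card_fin, nsmul_eq_mul]
            push_cast
            ring
    have h2 : Pr (olaw (π p) (g.res.Rl τ) s) (fun o => ∃ j, UE (o.2.1 j)) ≤ 1 / c.X ^ 100 := by
      refine pr_z1 (hl p) (fun z => ∃ j, UE (z j)) _ ?_
      intro x y h
      have ha := (hadm p x y h).2.2.1
      exact hUE τ x y ha.1 ha.2
    have h3 : Pr (olaw (π p) (g.res.Rl τ) s) (fun o => ∃ j, UE (o.2.2 j)) ≤ 1 / c.X ^ 100 := by
      refine pr_z2 (hl p) (fun z => ∃ j, UE (z j)) _ ?_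
      intro x y h
      have ha := (hadm p x y h).2.2.2
      exact hUE τ _ _ ha.1 ha.2
    have h4 := pr_or hP (fun o : c.Op => ∃ j, UE (o.2.1 j)) (fun o => ∃ j, UE (o.2.2 j))
    have h5 : 2 / c.X ^ 100 = 1 / c.X ^ 100 + 1 / c.X ^ 100 := by ring
    rw [h5]
    linarith
  -- cardinalities
  have hcκ' : (Fintype.card κ : ℝ) ≤ (Fintype.card G : ℝ) ^ 2 := by exact_mod_cast hcκ
  have hcι' : (Fintype.card ι : ℝ) ≤ (Fintype.card G : ℝ) ^ 2 := by exact_mod_cast hcι
  have hSm' : ∀ i, c.X ^ 1000 ≤ 8 * ((S i).card : ℝ) := by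
    intro i
    have : (m : ℝ) ≤ 8 * ((S i).card : ℝ) := by exact_mod_cast hSm i
    exact le_trans hm.1 this
  -- apply SELECT
  obtain ⟨ω, o1, o2, o3⟩ := hS κ c.Op (G ⊕ (G × G)) ((Bool × G × G) ⊕ (Fin mm × G) ⊕ ι ⊕ κ) c.T
    (fun p => olaw (π p) (g.res.Rl τ) s) (tch s uses) (fun _ o => bad o)
    (Sum.elim w1 (Sum.elim w2 (Sum.elim w3 w4)))
    (Sum.elim (fun _ => 1 / (2 * c.X ^ 150)) (Sum.elim (fun _ => 1 / (2 * c.X ^ 900))
      (Sum.elim (fun i => ((S i).card : ℝ) / (2000 * c.k)) (fun _ => 1 / c.X ^ 160))))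
    (Sum.elim (fun _ => 6 * c.k * c.X ^ 6010 / c.b) (Sum.elim (fun _ => 4 / c.b)
      (Sum.elim (fun _ => 4) (fun _ => 24 / c.X ^ 990 + 12 * (c.k * c.X ^ 6010 / c.b)))))
    (fun p => Sum.inr (Sum.inr (Sum.inr p))) (1 / (Fintype.card G : ℝ) ^ 40) (1 / c.X ^ 99)
    (fun p => olaw_isPr (hl p)) (by positivity) (by positivity) c.hT1
    (by
      rintro (a | a | a | a)
      · exact hw1nn a
      · exact hw2nn a
      · exact hw3nn a
      · exact hw4nn a)
    (by
      rintro (a | a | a | a) <;> simp only [Sum.elim_inl, Sum.elim_inr] <;> positivity)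
    (by
      rintro (a | a | a | a)
      · simp only [Sum.elim_inl]; positivity
      · simp only [Sum.elim_inl, Sum.elim_inr]; positivity
      · simp only [Sum.elim_inl, Sum.elim_inr]
        have h1 := hSm' a
        have h2 : 0 < c.X ^ 1000 := by positivity
        have : 0 < ((S a).card : ℝ) := by linarith
        positivity
      · simp only [Sum.elim_inr]; positivity)
    (by
      rintro (a | a | a | a) p o _
      · exact hw1sup a o
      · exact hw2sup a o
      · exact hw3sup a o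
      · exact hw4sup a o)
    (by
      rintro (a | a | a | a)
      · exact hm1 a
      · exact hm2 a
      · exact hm3 a
      · exact hm4 a)
    (by
      rintro (a | a | a | a)
      · exact hexpX _ rn.exp1
      · exact hexpX _ rn.exp2
      · exact hexpX _ (rn.exp3 (hSm' a))
      · exact hexpX _ rn.exp4)
    (fun p d => le_rfl)
    (by
      intro p
      have h1 := hbadp p
      have h2 := rn.eps
      simp only [Sum.elim_inr]
      linarith)
    (by
      have hn0 : (0 : ℝ) < Fintype.card G := by linarith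
      have hcard : (Fintype.card ((Bool × G × G) ⊕ (Fin mm × G) ⊕ ι ⊕ κ) : ℝ) ≤
          5 * (Fintype.card G : ℝ) ^ 2 := by
        rw [Fintype.card_sum, Fintype.card_sum, Fintype.card_sum, Fintype.card_prod,
          Fintype.card_prod, Fintype.card_prod, Fintype.card_bool, Fintype.card_fin]
        push_cast
        have : (mm : ℝ) * Fintype.card G ≤ (Fintype.card G : ℝ) ^ 2 := by
          rw [pow_two]
          exact mul_le_mul_of_nonneg_right (le_trans hmm hXn) hn0.le
        nlinarith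
      have h1 : (Fintype.card ((Bool × G × G) ⊕ (Fin mm × G) ⊕ ι ⊕ κ) : ℝ) *
          (1 / (Fintype.card G : ℝ) ^ 40) ≤ 1 / 4 := by
        rw [mul_one_div, div_le_div_iff₀ (by positivity) (by norm_num)]
        have h2 : (Fintype.card G : ℝ) ^ 40 = (Fintype.card G : ℝ) ^ 2 *
          (Fintype.card G : ℝ) ^ 38 := by rw [← pow_add]
        have h3 : (20 : ℝ) ≤ (Fintype.card G : ℝ) ^ 38 := by
          refine le_trans ?_ (le_self_pow₀ (a := (Fintype.card G : ℝ)) (by linarith)
            (by norm_num : (38 : ℕ) ≠ 0))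
          linarith
        have h4 : (0 : ℝ) < (Fintype.card G : ℝ) ^ 2 := by positivity
        rw [h2]
        nlinarith
      have h2 : (Fintype.card κ : ℝ) * (1 / c.X ^ 99) ^ c.T ≤ 1 / 4 := by
        have h3 : (1 / c.X ^ 99) ^ c.T ≤ 1 / (Fintype.card G : ℝ) ^ 20 := by
          rw [one_div, inv_pow, ← pow_mul, ← one_div]
          apply one_div_le_one_div_of_le (by positivity)
          refine le_trans n12 ?_
          exact rn.pw (by omega)
        calc (Fintype.card κ : ℝ) * (1 / c.X ^ 99) ^ c.T ≤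
            (Fintype.card G : ℝ) ^ 2 * (1 / (Fintype.card G : ℝ) ^ 20) :=
              mul_le_mul hcκ' h3 (by positivity) (by positivity)
          _ ≤ 1 / 4 := by
            rw [mul_one_div, div_le_div_iff₀ (by positivity) (by norm_num)]
            have h2 : (Fintype.card G : ℝ) ^ 20 = (Fintype.card G : ℝ) ^ 2 *
              (Fintype.card G : ℝ) ^ 18 := by rw [← pow_add]
            have h3 : (20 : ℝ) ≤ (Fintype.card G : ℝ) ^ 18 := by
              refine le_trans ?_ (le_self_pow₀ (a := (Fintype.card G : ℝ)) (by linarith)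
                (by norm_num : (18 : ℕ) ≠ 0))
              linarith
            have h4 : (0 : ℝ) < (Fintype.card G : ℝ) ^ 2 := by positivity
            rw [h2]
            nlinarith
      linarith)
  -- the choice
  choose t ht1 ht2 using o3
  have hsup : ∀ (w : G ⊕ (G × G) → ℝ), (∀ d, 0 ≤ w d) → ∀ B : ℝ,
      ∑ p, ∑ t, wtO (tch s uses) w (ω p t) ≤ B → ∑ p, wtO (tch s uses) w (ω p (t p)) ≤ B := by
    intro w hw B hB
    refine le_trans ?_ hB
    apply Finset.sum_le_sum
    intro p _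
    exact Finset.single_le_sum (f := fun t => wtO (tch s uses) w (ω p t))
      (fun t' _ => Finset.sum_nonneg (fun d _ => hw d)) (Finset.mem_univ (t p))
  have hmem1 : ∀ p j, (Sum.inr ((ω p (t p)).2.1 j) : G ⊕ (G × G)) ∈ tch s uses (ω p (t p)) := by
    intro p j
    simp [tch, huses]
  have hmem2 : ∀ p j, (Sum.inr ((ω p (t p)).2.2 j) : G ⊕ (G × G)) ∈ tch s uses (ω p (t p)) := by
    intro p j
    simp [tch, huses]
  have hmem3 : ∀ p v, v ∈ touch4 s (ω p (t p)).1 →
      (Sum.inl v : G ⊕ (G × G)) ∈ tch s uses (ω p (t p)) := by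
    intro p v hv
    simp only [touch4, Finset.mem_insert, Finset.mem_singleton] at hv
    simp only [tch, Finset.mem_union, Finset.mem_insert, Finset.mem_singleton, Sum.inl.injEq]
    exact Or.inl hv
  have hne : ∀ p, π p (ω p (t p)).1.1 (ω p (t p)).1.2 ≠ 0 ∧
      g.res.Rl τ (ω p (t p)).1.1 (ω p (t p)).1.2 (ω p (t p)).2.1 ≠ 0 ∧
      g.res.Rl τ (s (ω p (t p)).1.1) (s (ω p (t p)).1.2) (ω p (t p)).2.2 ≠ 0 := by
    intro p
    have h := o1 p (t p)
    unfold olaw at h
    exact ⟨left_ne_zero_of_mul h, left_ne_zero_of_mul (right_ne_zero_of_mul h),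
      right_ne_zero_of_mul (right_ne_zero_of_mul h)⟩
  refine ⟨fun p => ω p (t p), Finset.univ.biUnion (fun p => touch4 s (ω p (t p)).1),
    Finset.univ.biUnion (fun p => uses (ω p (t p)).2.1 ∪ uses (ω p (t p)).2.2), ?_⟩
  refine ⟨fun p => (hne p).1, fun p => (hne p).2.1, fun p => (hne p).2.2, ?_, ?_, ?_, ?_, ?_, ?_,
    ?_, ?_, ?_⟩
  · intro p j j' h
    exact ht1 p (Or.inl ⟨j, j', h⟩)
  · intro p j
    exact ⟨fun h => ht1 p (Or.inr (Or.inl ⟨j, h⟩)), fun h => ht1 p (Or.inr (Or.inr ⟨j, h⟩))⟩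
  · intro p q hpq j j'
    have hd := Finset.disjoint_left.1 (ht2 p q (Ne.symm hpq) (t q))
    refine ⟨?_, ?_, ?_⟩
    · intro h
      exact hd (hmem1 p j) (h ▸ hmem1 q j')
    · intro h
      exact hd (hmem1 p j) (h ▸ hmem2 q j')
    · intro h
      exact hd (hmem2 p j) (h ▸ hmem2 q j')
  · intro p q hpq
    have hd := Finset.disjoint_left.1 (ht2 p q (Ne.symm hpq) (t q))
    rw [Finset.disjoint_left]
    intro v hv hv'
    exact hd (hmem3 p v hv) (hmem3 q v hv')
  · intro p j
    constructor <;> rw [Finset.mem_biUnion] <;> refine ⟨p, Finset.mem_univ _, ?_⟩ <;>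
      simp [huses]
  · intro p v hv
    rw [Finset.mem_biUnion]
    exact ⟨p, Finset.mem_univ _, hv⟩
  · -- i1
    intro τ' x y hxy hadm'
    have h1 := hsup (w1 (τ', x, y)) (hw1nn _) _ (o2 (Sum.inl (τ', x, y)))
    simp only [Sum.elim_inl] at h1
    have h2 : 2 * (1 / (2 * c.X ^ 150)) = 1 / c.X ^ 150 := by field_simp
    rw [h2] at h1
    refine le_trans ?_ h1
    have hP := g.res.law τ' x y hxy hadm'
    set Ep := Finset.univ.biUnion (fun p => uses (ω p (t p)).2.1 ∪ uses (ω p (t p)).2.2) with hEp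
    have h3 : Pr (g.res.Rl τ' x y) (fun z => ∃ j, z j ∈ Ep) ≤
        ∑ e ∈ Ep, Pr (g.res.Rl τ' x y) (fun z => ∃ j, z j = e) := by
      refine le_trans (pr_mono hP (F := fun z => ∃ e ∈ Ep, ∃ j, z j = e) ?_)
        (pr_exists_finset hP Ep _)
      rintro z _ ⟨j, hj⟩
      exact ⟨z j, hj, j, rfl⟩
    refine le_trans h3 ?_
    refine le_trans (sum_biUnion_le _ _ _ ?_) ?_
    · intro e
      exact pr_nn hP.nn _
    apply Finset.sum_le_sum
    intro p _
    have h4 : ∑ e ∈ uses (ω p (t p)).2.1 ∪ uses (ω p (t p)).2.2,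
        Pr (g.res.Rl τ' x y) (fun z => ∃ j, z j = e) =
        ∑ d ∈ (uses (ω p (t p)).2.1 ∪ uses (ω p (t p)).2.2).image
          (Sum.inr : G × G → G ⊕ (G × G)), w1 (τ', x, y) d := by
      rw [Finset.sum_image (fun a _ b _ h => Sum.inr_injective h)]
      apply Finset.sum_congr rfl
      intro e _
      simp only [hw1, Sum.elim_inr]
      rw [if_pos ⟨hxy, hadm'⟩, hPR]
    rw [h4]
    apply Finset.sum_le_sum_of_subset_of_nonneg
    · intro d hd
      rw [Finset.image_union] at hd
      exact Finset.mem_union_right _ hd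
    · intro d _ _
      exact hw1nn _ _
  · -- i2
    intro M hM y
    obtain ⟨i, rfl⟩ := hf2 M hM
    have h1 := hsup (w2 (i, y)) (hw2nn _) _ (o2 (Sum.inr (Sum.inl (i, y))))
    simp only [Sum.elim_inl, Sum.elim_inr] at h1
    have h2 : 2 * (1 / (2 * c.X ^ 900)) = 1 / c.X ^ 900 := by field_simp
    rw [h2] at h1
    refine le_trans ?_ h1
    set Vp := Finset.univ.biUnion (fun p => touch4 s (ω p (t p)).1) with hVp
    have h3 : ∑ x, ind (x ∈ Vp) * f i y x = ∑ x ∈ Vp, f i y x := by
      rw [← Finset.sum_filter_add_sum_filter_not Finset.univ (fun x => x ∈ Vp)]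
      have e1 : ∑ x ∈ Finset.univ.filter (fun x => ¬ x ∈ Vp), ind (x ∈ Vp) * f i y x = 0 := by
        apply Finset.sum_eq_zero
        intro x hx
        rw [Finset.mem_filter] at hx
        rw [ind_not hx.2, zero_mul]
      have e2 : Finset.univ.filter (fun x => x ∈ Vp) = Vp := by ext; simp
      rw [e1, add_zero, e2]
      apply Finset.sum_congr rfl
      intro x hx
      rw [ind_of hx, one_mul]
    rw [h3]
    refine le_trans (sum_biUnion_le _ _ _ ?_) ?_
    · intro x
      exact (hDS i).nn _ _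
    apply Finset.sum_le_sum
    intro p _
    have h4 : ∑ x ∈ touch4 s (ω p (t p)).1, f i y x =
        ∑ d ∈ (touch4 s (ω p (t p)).1).image (Sum.inl : G → G ⊕ (G × G)), w2 (i, y) d := by
      rw [Finset.sum_image (fun a _ b _ h => Sum.inl_injective h)]
      apply Finset.sum_congr rfl
      intro x _
      simp only [hw2, Sum.elim_inl]
    rw [h4]
    apply Finset.sum_le_sum_of_subset_of_nonneg
    · intro d hd
      rw [Finset.mem_image] at hd
      obtain ⟨v, hv, rfl⟩ := hd
      exact hmem3 p v hv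
    · intro d _ _
      exact hw2nn _ _
  · -- i3
    intro i
    have h1 := hsup (w3 i) (hw3nn _) _ (o2 (Sum.inr (Sum.inr (Sum.inl i))))
    simp only [Sum.elim_inl, Sum.elim_inr] at h1
    set Vp := Finset.univ.biUnion (fun p => touch4 s (ω p (t p)).1) with hVp
    have h2 : ((S i ∩ Vp).card : ℝ) ≤ 2 * (((S i).card : ℝ) / (2000 * c.k)) := by
      refine le_trans ?_ h1
      have h3 : ((S i ∩ Vp).card : ℝ) = ∑ x ∈ Vp, ind (x ∈ S i) := by
        have e1 : ∑ x ∈ Vp, ind (x ∈ S i) = ∑ x ∈ Vp, (if x ∈ S i then (1 : ℝ) else 0) := by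
          apply Finset.sum_congr rfl
          intro x _
          by_cases hx : x ∈ S i
          · rw [ind_of hx, if_pos hx]
          · rw [ind_not hx, if_neg hx]
        rw [e1, Finset.sum_ite_mem, Finset.sum_const, nsmul_eq_mul, mul_one, Finset.inter_comm]
      rw [h3]
      refine le_trans (sum_biUnion_le _ _ _ ?_) ?_
      · intro x
        exact ind_nonneg _
      apply Finset.sum_le_sum
      intro p _
      have h4 : ∑ x ∈ touch4 s (ω p (t p)).1, ind (x ∈ S i) =
          ∑ d ∈ (touch4 s (ω p (t p)).1).image (Sum.inl : G → G ⊕ (G × G)), w3 i d := by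
        rw [Finset.sum_image (fun a _ b _ h => Sum.inl_injective h)]
        apply Finset.sum_congr rfl
        intro x _
        simp only [hw3, Sum.elim_inl]
      rw [h4]
      apply Finset.sum_le_sum_of_subset_of_nonneg
      · intro d hd
        rw [Finset.mem_image] at hd
        obtain ⟨v, hv, rfl⟩ := hd
        exact hmem3 p v hv
      · intro d _ _
        exact hw3nn _ _
    have h5 : (1000 * (c.k : ℝ)) * ((S i ∩ Vp).card : ℝ) ≤ ((S i).card : ℝ) := by
      calc (1000 * (c.k : ℝ)) * ((S i ∩ Vp).card : ℝ) ≤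
          (1000 * (c.k : ℝ)) * (2 * (((S i).card : ℝ) / (2000 * c.k))) :=
            mul_le_mul_of_nonneg_left h2 (by positivity)
        _ = ((S i).card : ℝ) := by
            field_simp
            ring
    exact_mod_cast h5

end Pool.Agent.Lib.MP_688fd0_co.TE.H20
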