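import Pool.Agent.Lib.MP_688fd0_co.TE.H20.Olaw

/-! Numerical facts and general lemmas for RND. -/

namespace Pool.Agent.Lib.MP_688fd0_co.TE.H20

open Pool.Agent.Lib.MP_688fd0_co.TE

/-- Numerical facts for RND. -/
structure RN (X b k T n : ℝ) : Prop where
  X1 : 10 ^ 6 ≤ X
  k1 : 1 ≤ k
  T1 : 1 ≤ T
  kX : 10 ^ 6 * k ≤ X
  TX : 10 ^ 6 * T ≤ X
  bX : X ^ 200000 ≤ b
  bn : b ≤ n

variable {X b k T n : ℝ}

theorem RN.Xpos (h : RN X b k T n) : 0 < X := by have := h.X1; linarith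

theorem RN.bpos (h : RN X b k T n) : 0 < b := lt_of_lt_of_le (pow_pos h.Xpos _) h.bX

theorem RN.pw (h : RN X b k T n) {i j : ℕ} (hij : i ≤ j) : X ^ i ≤ X ^ j :=
  pow_le_pow_right₀ (by have := h.X1; linarith) hij

theorem RN.kT (h : RN X b k T n) : 10 ^ 12 * (k * T) ≤ X ^ 2 := by
  have h1 := mul_le_mul h.kX h.TX (by have := h.T1; linarith) h.Xpos.le
  calc 10 ^ 12 * (k * T) = (10 ^ 6 * k) * (10 ^ 6 * T) := by ring
    _ ≤ X * X := h1
    _ = X ^ 2 := by ring

/-- Comparison: `c ≤ X ^ i` gives `c / X ^ j ≤ 1 / X ^ l` if `i + l ≤ j`. -/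
theorem RN.cmp (h : RN X b k T n) {c : ℝ} {i j l : ℕ} (hc : c ≤ X ^ i) (hij : i + l ≤ j) :
    c / X ^ j ≤ 1 / X ^ l := by
  have hX := h.Xpos
  rw [div_le_div_iff₀ (pow_pos hX _) (pow_pos hX _), one_mul]
  calc c * X ^ l ≤ X ^ i * X ^ l := mul_le_mul_of_nonneg_right hc (pow_pos hX _).le
    _ = X ^ (i + l) := by rw [pow_add]
    _ ≤ X ^ j := h.pw hij

/-- Division by `b`. -/
theorem RN.cmpb (h : RN X b k T n) {c : ℝ} {i l : ℕ} (hc : c ≤ X ^ i) (hc0 : 0 ≤ c)
    (hij : i + l ≤ 200000) : c / b ≤ 1 / X ^ l := by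
  have h1 : c / b ≤ c / X ^ 200000 := div_le_div_of_nonneg_left hc0 (pow_pos h.Xpos _) h.bX
  exact le_trans h1 (h.cmp hc hij)

theorem RN.q6010 (h : RN X b k T n) : k * X ^ 6010 / b ≤ 1 / X ^ 100000 := by
  apply h.cmpb (i := 6011) _ (by have := h.k1; have := h.Xpos; positivity) (by norm_num)
  have h1 : k ≤ X := by have := h.kX; have := h.k1; linarith
  calc k * X ^ 6010 ≤ X * X ^ 6010 := mul_le_mul_of_nonneg_right h1 (pow_pos h.Xpos _).le
    _ = X ^ 6011 := by ring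

/-! ### Means -/

theorem RN.mean1 (h : RN X b k T n) {p Λ SE : ℝ} (hp : 0 ≤ p * Λ) (hpΛ : p * Λ ≤ 1 / X ^ 180)
    (hSE : SE ≤ 3 * k) (hSE0 : 0 ≤ SE) : T * (3 * p * Λ * SE) ≤ 1 / (2 * X ^ 150) := by
  have hT := h.T1
  have hk := h.k1
  have hX := h.Xpos
  have h1 : T * (3 * p * Λ * SE) ≤ T * (3 * (1 / X ^ 180) * (3 * k)) := by
    have : 3 * p * Λ * SE ≤ 3 * (1 / X ^ 180) * (3 * k) := by
      have e : 3 * p * Λ * SE = 3 * (p * Λ) * SE := by ring
      rw [e]
      apply mul_le_mul (by linarith) hSE hSE0 (by positivity)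
    exact mul_le_mul_of_nonneg_left this (by linarith)
  have h2 : T * (3 * (1 / X ^ 180) * (3 * k)) = (9 * (k * T)) / X ^ 180 := by field_simp; ring
  have h3 : (18 * (k * T)) / X ^ 180 ≤ 1 / X ^ 150 :=
    h.cmp (i := 2) (by have := h.kT; have : 0 ≤ k * T := by positivity
                       linarith) (by norm_num)
  have h4 : 1 / (2 * X ^ 150) = (1 / X ^ 150) / 2 := by field_simp
  have h5 : (18 * (k * T)) / X ^ 180 = 2 * ((9 * (k * T)) / X ^ 180) := by ring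
  rw [h4]
  rw [h2] at h1
  linarith

theorem RN.mean2 (h : RN X b k T n) {p SV : ℝ} (hp0 : 0 ≤ p) (hp : p ≤ 1 / X ^ 990)
    (hSV : SV ≤ 1) (hSV0 : 0 ≤ SV) : T * (6 * p * SV) ≤ 1 / (2 * X ^ 900) := by
  have hT := h.T1
  have hX := h.Xpos
  have h1 : T * (6 * p * SV) ≤ T * (6 * (1 / X ^ 990) * 1) := by
    have : 6 * p * SV ≤ 6 * (1 / X ^ 990) * 1 :=
      mul_le_mul (by linarith) hSV hSV0 (by positivity)
    exact mul_le_mul_of_nonneg_left this (by linarith)
  have h2 : T * (6 * (1 / X ^ 990) * 1) = (6 * T) / X ^ 990 := by field_simp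
  have h3 : (12 * T) / X ^ 990 ≤ 1 / X ^ 900 :=
    h.cmp (i := 1) (by have := h.TX; rw [pow_one]; linarith) (by norm_num)
  have h4 : 1 / (2 * X ^ 900) = (1 / X ^ 900) / 2 := by field_simp
  have h5 : (12 * T) / X ^ 990 = 2 * ((6 * T) / X ^ 990) := by ring
  rw [h4]
  rw [h2] at h1
  linarith

theorem RN.mean3 (h : RN X b k T n) {p SV : ℝ} (hp0 : 0 ≤ p) (hp : p ≤ 1 / X ^ 990)
    (hSV0 : 0 ≤ SV) : T * (6 * p * SV) ≤ SV / (2000 * k) := by
  have hT := h.T1
  have hk := h.k1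
  have hX := h.Xpos
  have h1 : T * (6 * p) * (2000 * k) ≤ 1 := by
    have e1 : T * (6 * p) * (2000 * k) ≤ T * (6 * (1 / X ^ 990)) * (2000 * k) := by
      apply mul_le_mul_of_nonneg_right _ (by positivity)
      exact mul_le_mul_of_nonneg_left (by linarith) (by linarith)
    have e2 : T * (6 * (1 / X ^ 990)) * (2000 * k) = (12000 * (k * T)) / X ^ 990 := by
      field_simp; ring
    have e3 : (12000 * (k * T)) / X ^ 990 ≤ 1 / X ^ 0 :=
      h.cmp (i := 2) (by have := h.kT; have : 0 ≤ k * T := by positivity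
                         linarith) (by norm_num)
    rw [pow_zero, div_one] at e3
    linarith
  rw [le_div_iff₀ (by positivity)]
  calc T * (6 * p * SV) * (2000 * k) = (T * (6 * p) * (2000 * k)) * SV := by ring
    _ ≤ 1 * SV := mul_le_mul_of_nonneg_right h1 hSV0
    _ = SV := one_mul _

theorem RN.mean4 (h : RN X b k T n) {p Λ SV SE : ℝ} (hp0 : 0 ≤ p) (hp : p ≤ 1 / X ^ 990)
    (hp' : 0 ≤ p * Λ) (hpΛ : p * Λ ≤ 1 / X ^ 180) (hSV : SV ≤ 4) (hSV0 : 0 ≤ SV)
    (hSE : SE ≤ 6 * k) (hSE0 : 0 ≤ SE) :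
    T * (6 * p * SV + 3 * p * Λ * SE) ≤ 1 / X ^ 160 := by
  have hT := h.T1
  have hk := h.k1
  have hX := h.Xpos
  have a1 : 6 * p * SV ≤ 6 * (1 / X ^ 990) * 4 :=
    mul_le_mul (by linarith) hSV hSV0 (by positivity)
  have a2 : 3 * p * Λ * SE ≤ 3 * (1 / X ^ 180) * (6 * k) := by
    have e : 3 * p * Λ * SE = 3 * (p * Λ) * SE := by ring
    rw [e]
    exact mul_le_mul (by linarith) hSE hSE0 (by positivity)
  have a3 : T * (6 * p * SV + 3 * p * Λ * SE) ≤
      T * (6 * (1 / X ^ 990) * 4 + 3 * (1 / X ^ 180) * (6 * k)) :=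
    mul_le_mul_of_nonneg_left (by linarith) (by linarith)
  have a4 : T * (6 * (1 / X ^ 990) * 4 + 3 * (1 / X ^ 180) * (6 * k)) =
      (24 * T) / X ^ 990 + (18 * (k * T)) / X ^ 180 := by field_simp; ring
  have a5 : (24 * T) / X ^ 990 ≤ 1 / X ^ 170 :=
    h.cmp (i := 1) (by have := h.TX; rw [pow_one]; linarith) (by norm_num)
  have a6 : (18 * (k * T)) / X ^ 180 ≤ 1 / X ^ 170 :=
    h.cmp (i := 2) (by have := h.kT; have : 0 ≤ k * T := by positivity
                       linarith) (by norm_num)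
  have a7 : 2 / X ^ 170 ≤ 1 / X ^ 160 :=
    h.cmp (i := 1) (by have := h.X1; rw [pow_one]; linarith) (by norm_num)
  have a8 : 2 / X ^ 170 = 1 / X ^ 170 + 1 / X ^ 170 := by ring
  rw [a4] at a3
  linarith

/-! ### Exponents -/

theorem RN.exp1 (h : RN X b k T n) :
    X ≤ 1 / (2 * X ^ 150) / (4 * (T * (6 * k * X ^ 6010 / b))) := by
  have hT := h.T1
  have hk := h.k1
  have hX := h.Xpos
  have hb := h.bpos
  have e : 1 / (2 * X ^ 150) / (4 * (T * (6 * k * X ^ 6010 / b))) =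
      b / (48 * (k * T) * X ^ 6160) := by field_simp; ring
  rw [e, le_div_iff₀ (by positivity)]
  have h1 : 48 * (k * T) ≤ X ^ 2 := by
    have := h.kT
    have : 0 ≤ k * T := by positivity
    linarith
  calc X * (48 * (k * T) * X ^ 6160) ≤ X * (X ^ 2 * X ^ 6160) := by
        apply mul_le_mul_of_nonneg_left _ hX.le
        exact mul_le_mul_of_nonneg_right h1 (pow_pos hX _).le
    _ = X ^ 6163 := by ring
    _ ≤ X ^ 200000 := h.pw (by norm_num)
    _ ≤ b := h.bX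

theorem RN.exp2 (h : RN X b k T n) : X ≤ 1 / (2 * X ^ 900) / (4 * (T * (4 / b))) := by
  have hT := h.T1
  have hX := h.Xpos
  have hb := h.bpos
  have e : 1 / (2 * X ^ 900) / (4 * (T * (4 / b))) = b / (32 * T * X ^ 900) := by
    field_simp; ring
  rw [e, le_div_iff₀ (by positivity)]
  have h1 : 32 * T ≤ X := by have := h.TX; linarith
  calc X * (32 * T * X ^ 900) ≤ X * (X * X ^ 900) := by
        apply mul_le_mul_of_nonneg_left _ hX.le
        exact mul_le_mul_of_nonneg_right h1 (pow_pos hX _).le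
    _ = X ^ 902 := by ring
    _ ≤ X ^ 200000 := h.pw (by norm_num)
    _ ≤ b := h.bX

theorem RN.exp3 (h : RN X b k T n) {S : ℝ} (hS : X ^ 1000 ≤ 8 * S) :
    X ≤ S / (2000 * k) / (4 * (T * 4)) := by
  have hT := h.T1
  have hk := h.k1
  have hX := h.Xpos
  have e : S / (2000 * k) / (4 * (T * 4)) = 8 * S / (256000 * (k * T)) := by field_simp; ring
  rw [e, le_div_iff₀ (by positivity)]
  have h1 : 256000 * (k * T) ≤ X ^ 2 := by
    have := h.kT
    have : 0 ≤ k * T := by positivity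
    linarith
  calc X * (256000 * (k * T)) ≤ X * X ^ 2 := mul_le_mul_of_nonneg_left h1 hX.le
    _ = X ^ 3 := by ring
    _ ≤ X ^ 1000 := h.pw (by norm_num)
    _ ≤ 8 * S := hS

theorem RN.exp4 (h : RN X b k T n) :
    X ≤ 1 / X ^ 160 / (4 * (T * (24 / X ^ 990 + 12 * (k * X ^ 6010 / b)))) := by
  have hT := h.T1
  have hk := h.k1
  have hX := h.Xpos
  have hb := h.bpos
  have h1 : 24 / X ^ 990 + 12 * (k * X ^ 6010 / b) ≤ 36 / X ^ 990 := by
    have e1 := h.q6010
    have e2 : 1 / X ^ 100000 ≤ 1 / X ^ 990 := h.cmp (i := 0) (by simp) (by norm_num)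
    have e3 : 36 / X ^ 990 = 24 / X ^ 990 + 12 * (1 / X ^ 990) := by ring
    linarith
  have hpos : 0 < 24 / X ^ 990 + 12 * (k * X ^ 6010 / b) := by positivity
  rw [le_div_iff₀ (by positivity)]
  have h2 : X * (4 * (T * (24 / X ^ 990 + 12 * (k * X ^ 6010 / b)))) ≤
      X * (4 * (T * (36 / X ^ 990))) := by
    apply mul_le_mul_of_nonneg_left _ hX.le
    apply mul_le_mul_of_nonneg_left _ (by norm_num)
    exact mul_le_mul_of_nonneg_left h1 (by linarith)
  refine le_trans h2 ?_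
  have e : X * (4 * (T * (36 / X ^ 990))) = (144 * T * X) / X ^ 990 := by ring
  rw [e]
  apply h.cmp (i := 2) _ (by norm_num)
  have := h.TX
  have h3 : 144 * T ≤ X := by linarith
  calc 144 * T * X ≤ X * X := mul_le_mul_of_nonneg_right h3 hX.le
    _ = X ^ 2 := by ring

theorem RN.eps (h : RN X b k T n) :
    3 * (k * X ^ 6010 / b) + 2 / X ^ 100 + 2 * (1 / X ^ 160) ≤ 1 / X ^ 99 := by
  have hX := h.Xpos
  have e1 := h.q6010
  have e2 : 1 / X ^ 100000 ≤ 1 / X ^ 100 := h.cmp (i := 0) (by simp) (by norm_num)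
  have e3 : 1 / X ^ 160 ≤ 1 / X ^ 100 := h.cmp (i := 0) (by simp) (by norm_num)
  have e4 : 7 / X ^ 100 ≤ 1 / X ^ 99 :=
    h.cmp (i := 1) (by have := h.X1; rw [pow_one]; linarith) (by norm_num)
  have e5 : 7 / X ^ 100 = 7 * (1 / X ^ 100) := by ring
  have e6 : 2 / X ^ 100 = 2 * (1 / X ^ 100) := by ring
  linarith

/-! ### General lemmas -/

section gen

variable {D O : Type*} [Fintype D] [DecidableEq D] [Fintype O]

/-- Mean of a touched weight. -/
theorem sum_pr (μ : O → ℝ) (touch : O → Finset D) (c : D → ℝ) :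
    ∑ d, c d * Pr μ (fun o => d ∈ touch o) = Ex μ (wtO touch c) := by
  unfold Pr Ex wtO
  simp only [Finset.mul_sum]
  rw [Finset.sum_comm]
  apply Finset.sum_congr rfl
  intro o _
  rw [← Finset.sum_filter_add_sum_filter_not Finset.univ (fun d => d ∈ touch o)]
  have h1 : ∑ d ∈ Finset.univ.filter (fun d => ¬ d ∈ touch o), c d * (μ o * ind (d ∈ touch o)) =
      0 := by
    apply Finset.sum_eq_zero
    intro d hd
    rw [Finset.mem_filter] at hd
    rw [ind_not hd.2]; ring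
  rw [h1, add_zero]
  have h2 : Finset.univ.filter (fun d => d ∈ touch o) = touch o := by ext; simp
  rw [h2]
  apply Finset.sum_congr rfl
  intro d hd
  rw [ind_of hd]; ring

theorem ex_le_of {μ : O → ℝ} (h : IsPr μ) {f : O → ℝ} {c : ℝ} (hf : ∀ o, f o ≤ c) :
    Ex μ f ≤ c := by
  unfold Ex
  calc ∑ ω, μ ω * f ω ≤ ∑ ω, μ ω * c :=
        Finset.sum_le_sum (fun ω _ => mul_le_mul_of_nonneg_left (hf ω) (h.nn ω))
    _ = c := by rw [← Finset.sum_mul, h.one, one_mul]

theorem pr_nn {μ : O → ℝ} (h : ∀ o, 0 ≤ μ o) (E : O → Prop) : 0 ≤ Pr μ E :=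
  Finset.sum_nonneg (fun ω _ => mul_nonneg (h ω) (ind_nonneg _))

theorem sum_ind_le_card {A : Type*} [Fintype A] (P : A → Prop) (s : Finset A)
    (h : ∀ a, P a → a ∈ s) : ∑ a, ind (P a) ≤ (s.card : ℝ) := by
  classical
  have h1 : ∑ a, ind (P a) ≤ ∑ a, (if a ∈ s then (1 : ℝ) else 0) := by
    apply Finset.sum_le_sum
    intro a _
    by_cases hP : P a
    · rw [ind_of hP, if_pos (h a hP)]
    · rw [ind_not hP]; split <;> norm_num
  refine le_trans h1 ?_
  simp

end gen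

section wt

variable {G L E : Type*} [Fintype G] [Fintype L] [Fintype E] [DecidableEq G] [DecidableEq E]
variable {π : G → G → ℝ} {Rl : G → G → L → ℝ} {s : G → G}

/-- Sup of a touched weight. -/
theorem wt_sup (uses : L → Finset E) (w : G ⊕ E → ℝ) (hw : ∀ d, 0 ≤ w d) (A C K : ℝ)
    (hA : ∀ u, w (Sum.inl u) ≤ A) (hC : ∀ e, w (Sum.inr e) ≤ C) (hC0 : 0 ≤ C)
    (hK : ∀ z, ((uses z).card : ℝ) ≤ K) (o : (G × G) × L × L) :
    wtO (tch s uses) w o ≤ 4 * A + 2 * (K * C) := by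
  have h1 := wt_le (s := s) uses w hw o
  have h2 : ∀ z, ∑ e ∈ uses z, w (Sum.inr e) ≤ K * C := by
    intro z
    calc ∑ e ∈ uses z, w (Sum.inr e) ≤ ∑ _e ∈ uses z, C := Finset.sum_le_sum (fun e _ => hC e)
      _ = (uses z).card * C := by rw [Finset.sum_const, nsmul_eq_mul]
      _ ≤ K * C := mul_le_mul_of_nonneg_right (hK z) hC0
  have h3 := h2 o.2.1
  have h4 := h2 o.2.2
  have h5 := hA o.1.1
  have h6 := hA o.1.2
  have h7 := hA (s o.1.1)
  have h8 := hA (s o.1.2)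
  linarith

theorem olaw_ex2 (h : LawOK π Rl s) (H : (G × G) → L → L → ℝ) (c : ℝ)
    (hH : ∀ x y z1, π x y ≠ 0 → ∑ z2, Rl (s x) (s y) z2 * H (x, y) z1 z2 ≤ c) :
    ∑ o, olaw π Rl s o * H o.1 o.2.1 o.2.2 ≤ c := by
  rw [Fintype.sum_prod_type, Fintype.sum_prod_type]
  calc ∑ x, ∑ y, ∑ z : L × L, olaw π Rl s ((x, y), z) * H (x, y) z.1 z.2 ≤
      ∑ x, ∑ y, π x y * c := by
        apply Finset.sum_le_sum
        intro x _
        apply Finset.sum_le_sum
        intro y _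
        by_cases h0 : π x y = 0
        · simp [olaw, h0]
        rw [Fintype.sum_prod_type]
        have e1 := (h.l1 x y h0)
        have key : ∀ z1 : L, ∑ z2, olaw π Rl s ((x, y), z1, z2) * H (x, y) z1 z2 ≤
            π x y * (Rl x y z1 * c) := by
          intro z1
          have : ∑ z2, olaw π Rl s ((x, y), z1, z2) * H (x, y) z1 z2 =
              π x y * (Rl x y z1 * ∑ z2, Rl (s x) (s y) z2 * H (x, y) z1 z2) := by
            rw [Finset.mul_sum, Finset.mul_sum]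
            apply Finset.sum_congr rfl
            intro z2 _
            unfold olaw
            ring
          rw [this]
          apply mul_le_mul_of_nonneg_left _ (h.nn x y)
          exact mul_le_mul_of_nonneg_left (hH x y z1 h0) (e1.nn z1)
        refine le_trans (Finset.sum_le_sum (fun z1 _ => key z1)) (le_of_eq ?_)
        rw [← Finset.mul_sum, ← Finset.sum_mul, e1.one, one_mul]
    _ = (∑ x, ∑ y, π x y) * c := by
        rw [Finset.sum_mul]
        apply Finset.sum_congr rfl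
        intro x _
        rw [Finset.sum_mul]
    _ = c := by rw [h.one, one_mul]

end wt

end Pool.Agent.Lib.MP_688fd0_co.TE.H20
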